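import Pool.Agent.Y249.BG.Stage

set_option autoImplicit false
open MeasureTheory Set Filter
open scoped ENNReal

namespace Pool.Agent.Y249.BG

variable {X : Type*}

/-- The average over `1,...,N` of the indicator of `E` along the sequence. -/
noncomputable def avg (a : ℕ → ℕ) (T : X → X) (E : Set X) (x : X) (N : ℕ) : ℝ :=
  (1 / (N : ℝ)) * ∑ n ∈ Finset.Icc 1 N, E.indicator (fun _ => (1 : ℝ)) (T^[a n] x)

theorem ind_nonneg (E : Set X) (y : X) : 0 ≤ E.indicator (fun _ => (1 : ℝ)) y :=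
  indicator_nonneg (fun _ _ => zero_le_one) y

theorem ind_le_one (E : Set X) (y : X) : E.indicator (fun _ => (1 : ℝ)) y ≤ 1 :=
  indicator_le_self' (fun _ _ => zero_le_one) y

theorem avg_nonneg (a : ℕ → ℕ) (T : X → X) (E : Set X) (x : X) (N : ℕ) : 0 ≤ avg a T E x N :=
  mul_nonneg (by positivity) (Finset.sum_nonneg fun _ _ => ind_nonneg _ _)

theorem avg_le_one (a : ℕ → ℕ) (T : X → X) (E : Set X) (x : X) (N : ℕ) : avg a T E x N ≤ 1 := by
  unfold avg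
  have h1 : ∑ n ∈ Finset.Icc 1 N, E.indicator (fun _ => (1 : ℝ)) (T^[a n] x) ≤ N := by
    calc ∑ n ∈ Finset.Icc 1 N, E.indicator (fun _ => (1 : ℝ)) (T^[a n] x)
        ≤ ∑ n ∈ Finset.Icc 1 N, (1 : ℝ) := Finset.sum_le_sum fun _ _ => ind_le_one _ _
      _ = N := by simp
  rcases Nat.eq_zero_or_pos N with rfl | hN
  · simp
  · have hN' : (0 : ℝ) < N := by exact_mod_cast hN
    rw [one_div, inv_mul_le_iff₀ hN', mul_one]
    exact h1

theorem limsup_one (u : ℕ → ℝ) (h1 : ∀ N, u N ≤ 1)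
    (hf : ∀ δ > 0, ∀ N₀, ∃ N ≥ N₀, 1 - δ ≤ u N) : limsup u atTop = 1 := by
  have hb : IsBoundedUnder (· ≤ ·) atTop u := isBoundedUnder_of ⟨1, h1⟩
  apply le_antisymm
  · refine limsup_le_of_le ?_ (Eventually.of_forall h1)
    refine IsCoboundedUnder.of_frequently_ge (a := 0) ?_
    rw [frequently_atTop]
    intro N₀
    obtain ⟨N, hN, hN2⟩ := hf 1 one_pos N₀
    exact ⟨N, hN, by linarith⟩
  · refine le_of_forall_pos_le_add fun δ hδ => ?_
    have : 1 - δ ≤ limsup u atTop := by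
      refine le_limsup_of_frequently_le ?_ hb
      rw [frequently_atTop]
      exact hf δ hδ
    linarith

theorem liminf_zero (u : ℕ → ℝ) (h0 : ∀ N, 0 ≤ u N)
    (hf : ∀ δ > 0, ∀ N₀, ∃ N ≥ N₀, u N ≤ δ) : liminf u atTop = 0 := by
  have hb : IsBoundedUnder (· ≥ ·) atTop u := isBoundedUnder_of ⟨0, h0⟩
  apply le_antisymm
  · refine le_of_forall_pos_le_add fun δ hδ => ?_
    rw [zero_add]
    refine liminf_le_of_frequently_le ?_ hb
    rw [frequently_atTop]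
    exact hf δ hδ
  · refine le_liminf_of_le ?_ (Eventually.of_forall h0)
    refine IsCoboundedUnder.of_frequently_le (a := 1) ?_
    rw [frequently_atTop]
    intro N₀
    obtain ⟨N, hN, hN2⟩ := hf 1 one_pos N₀
    exact ⟨N, hN, by linarith⟩

/-- If almost all of the times lie in `E`, the average is close to one. -/
theorem avg_ge (a : ℕ → ℕ) (T : X → X) (E G : Set X) (x : X) (N q : ℕ) (hN : 0 < N) (hq : 0 < q)
    (hcard : q * (((Finset.Icc 1 N : Finset ℕ) : Set ℕ) ∩ {n | T^[a n] x ∉ G}).ncard ≤ N)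
    (hin : ∀ n ∈ Finset.Icc 1 N, T^[a n] x ∈ G → T^[a n] x ∈ E) :
    1 - 1 / (q : ℝ) ≤ avg a T E x N := by
  classical
  have hN' : (0 : ℝ) < N := by exact_mod_cast hN
  have hq' : (0 : ℝ) < q := by exact_mod_cast hq
  set S := (Finset.Icc 1 N).filter (fun n => T^[a n] x ∉ G) with hS
  have hSc : (((Finset.Icc 1 N : Finset ℕ) : Set ℕ) ∩ {n | T^[a n] x ∉ G}).ncard = S.card := by
    rw [← Set.ncard_coe_finset]
    congr 1
    ext n
    simp [hS]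
  rw [hSc] at hcard
  have hcard' : (q : ℝ) * S.card ≤ N := by exact_mod_cast hcard
  have h1 : ((Finset.Icc 1 N).card : ℝ) - S.card ≤
      ∑ n ∈ Finset.Icc 1 N, E.indicator (fun _ => (1 : ℝ)) (T^[a n] x) := by
    have h2 : ∑ n ∈ Finset.Icc 1 N, ((1 : ℝ) - (if T^[a n] x ∉ G then 1 else 0)) ≤
        ∑ n ∈ Finset.Icc 1 N, E.indicator (fun _ => (1 : ℝ)) (T^[a n] x) := by
      refine Finset.sum_le_sum fun n hn => ?_
      by_cases h : T^[a n] x ∈ G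
      · rw [if_neg (not_not.2 h), indicator_of_mem (hin n hn h), sub_zero]
      · rw [if_pos h, sub_self]
        exact ind_nonneg _ _
    rw [Finset.sum_sub_distrib, Finset.sum_const, nsmul_eq_mul, mul_one, Finset.sum_boole] at h2
    exact h2
  rw [Nat.card_Icc, Nat.add_sub_cancel] at h1
  unfold avg
  rw [one_div (N : ℝ), inv_mul_eq_div, le_div_iff₀ hN']
  have h3 : (S.card : ℝ) ≤ 1 / q * N := by
    rw [one_div, inv_mul_eq_div, le_div_iff₀ hq']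
    linarith
  linarith

/-- If almost all of the times avoid `E`, the average is close to zero. -/
theorem avg_le (a : ℕ → ℕ) (T : X → X) (E G : Set X) (x : X) (N q : ℕ) (hN : 0 < N) (hq : 0 < q)
    (hcard : q * (((Finset.Icc 1 N : Finset ℕ) : Set ℕ) ∩ {n | T^[a n] x ∉ G}).ncard ≤ N)
    (hin : ∀ n ∈ Finset.Icc 1 N, T^[a n] x ∈ G → T^[a n] x ∉ E) :
    avg a T E x N ≤ 1 / (q : ℝ) := by
  have h := avg_ge a T Eᶜ G x N q hN hq hcard hin
  have hN' : (0 : ℝ) < N := by exact_mod_cast hN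
  have h2 : avg a T E x N + avg a T Eᶜ x N = 1 := by
    unfold avg
    rw [← mul_add, ← Finset.sum_add_distrib]
    have h3 : ∀ n ∈ Finset.Icc 1 N, E.indicator (fun _ => (1 : ℝ)) (T^[a n] x) +
        Eᶜ.indicator (fun _ => (1 : ℝ)) (T^[a n] x) = 1 := by
      intro n _
      by_cases h : T^[a n] x ∈ E
      · rw [indicator_of_mem h, indicator_of_notMem (not_not.2 h), add_zero]
      · rw [indicator_of_notMem h, indicator_of_mem (show T^[a n] x ∈ Eᶜ from h), zero_add]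
    rw [Finset.sum_congr rfl h3, Finset.sum_const, Nat.card_Icc, Nat.add_sub_cancel, nsmul_eq_mul,
      mul_one, one_div, inv_mul_cancel₀ hN'.ne']
  linarith

theorem sso [MeasurableSpace X] [MeasurableSpace.CountablySeparated X] (μ : Measure X)
    [IsProbabilityMeasure μ] (T : X → X) (hT : MeasurePreserving T μ μ)
    (hap : ∀ k ≥ 1, μ {x | T^[k] x = x} = 0) (a : ℕ → ℕ) (hc : CycIn a)
    (ε : ℝ≥0∞) (hε : 0 < ε) :
    ∃ E : Set X, MeasurableSet E ∧ μ E < ε ∧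
      ∀ᵐ x ∂μ, limsup (avg a T E x) atTop = 1 ∧ liminf (avg a T E x) atTop = 0 := by
  classical
  obtain ⟨K, hK⟩ := ENNReal.exists_inv_nat_lt hε.ne'
  have hK0 : 0 < K := by
    rcases Nat.eq_zero_or_pos K with h | h
    · rw [h] at hK
      simp at hK
    · exact h
  choose G Nx hG1 hG2 hG3 using fun (j : ℕ) (D : ℕ) =>
    stage μ T hT hap a hc (2 ^ (j + 1)) (by
      rw [pow_succ]
      have := Nat.one_le_two_pow (n := j)
      omega) D (j + 1)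
  set w : ℕ → ℕ := fun j => Nat.rec 0 (fun j wj => wj + Nx j (K * 2 ^ (j + 1) * (wj + 1))) j
    with hw
  set D : ℕ → ℕ := fun j => K * 2 ^ (j + 1) * (w j + 1) with hD
  have hwsucc : ∀ j, w (j + 1) = w j + Nx j (D j) := fun j => rfl
  have hwmono : Monotone w := monotone_nat_of_le_succ fun j => by rw [hwsucc]; omega
  set Gs : ℕ → Set X := fun j => G j (D j) with hGs
  set Ns : ℕ → ℕ := fun j => Nx j (D j) with hNs
  have hNw : ∀ i j, j < i → Ns j ≤ w i := by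
    intro i j hij
    calc Ns j ≤ w j + Ns j := Nat.le_add_left _ _
      _ = w (j + 1) := (hwsucc j).symm
      _ ≤ w i := hwmono hij
  have hGm : ∀ j, MeasurableSet (Gs j) := fun j => hG1 j (D j)
  have hGμ : ∀ j, ((K * 2 ^ (j + 1) * (w j + 1) : ℕ) : ℝ≥0∞) * μ (Gs j) ≤ 1 := fun j =>
    hG2 j (D j)
  set α : ℕ → Set X := fun j => {x | ¬ ∃ N : ℕ, j + 1 ≤ N ∧ 0 < N ∧ N ≤ Ns j ∧
        2 ^ (j + 1) * (((Finset.Icc 1 N : Finset ℕ) : Set ℕ) ∩ {n | T^[a n] x ∉ Gs j}).ncard ≤ N}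
    with hα
  have hαμ : ∀ j, ((2 ^ (j + 1) : ℕ) : ℝ≥0∞) * μ (α j) ≤ 3 := fun j => hG3 j (D j)
  set β : ℕ → Set X := fun j => ⋃ n ∈ Finset.Icc 1 (w j), T^[a n] ⁻¹' (Gs j) with hβ
  have hpow : ∀ j : ℕ, ((2 ^ (j + 1) : ℕ) : ℝ≥0∞) * (2⁻¹ : ℝ≥0∞) ^ (j + 1) = 1 := by
    intro j
    push_cast
    rw [← mul_pow, ENNReal.mul_inv_cancel (by norm_num) (by norm_num), one_pow]
  have hconv : ∀ (j : ℕ) (y c : ℝ≥0∞), ((2 ^ (j + 1) : ℕ) : ℝ≥0∞) * y ≤ c →
      y ≤ c * (2⁻¹ : ℝ≥0∞) ^ (j + 1) := by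
    intro j y c h
    calc y = (((2 ^ (j + 1) : ℕ) : ℝ≥0∞) * y) * (2⁻¹ : ℝ≥0∞) ^ (j + 1) := by
          rw [mul_comm (((2 ^ (j + 1) : ℕ) : ℝ≥0∞)) y, mul_assoc, hpow, mul_one]
      _ ≤ c * (2⁻¹ : ℝ≥0∞) ^ (j + 1) := by gcongr
  have hgeo : ∑' j : ℕ, (2⁻¹ : ℝ≥0∞) ^ (j + 1) = 1 := by
    have : ∀ j : ℕ, (2⁻¹ : ℝ≥0∞) ^ (j + 1) = 2⁻¹ * (2⁻¹ : ℝ≥0∞) ^ j := fun j => pow_succ' _ _
    simp_rw [this]
    rw [ENNReal.tsum_mul_left, ENNReal.tsum_geometric, ENNReal.one_sub_inv_two, inv_inv]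
    exact ENNReal.inv_mul_cancel (by norm_num) (by norm_num)
  have hαs : ∑' j, μ (α j) ≠ ⊤ := by
    refine ne_top_of_le_ne_top (b := 3 * 1) (by norm_num) ?_
    rw [← hgeo, ← ENNReal.tsum_mul_left]
    exact ENNReal.tsum_le_tsum fun j => hconv j _ _ (hαμ j)
  have hβμ : ∀ j, ((2 ^ (j + 1) : ℕ) : ℝ≥0∞) * μ (β j) ≤ 1 := by
    intro j
    have h1 : μ (β j) ≤ w j * μ (Gs j) := by
      refine (measure_biUnion_finset_le _ _).trans ?_
      rw [Finset.sum_congr rfl (fun n _ =>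
        (hT.iterate (a n)).measure_preimage (hGm j).nullMeasurableSet), Finset.sum_const,
        Nat.card_Icc, Nat.add_sub_cancel, nsmul_eq_mul]
    calc ((2 ^ (j + 1) : ℕ) : ℝ≥0∞) * μ (β j) ≤ ((2 ^ (j + 1) : ℕ) : ℝ≥0∞) * (w j * μ (Gs j)) := by
          gcongr
      _ = ((2 ^ (j + 1) * w j : ℕ) : ℝ≥0∞) * μ (Gs j) := by push_cast; rw [mul_assoc]
      _ ≤ ((K * 2 ^ (j + 1) * (w j + 1) : ℕ) : ℝ≥0∞) * μ (Gs j) := by
          gcongr
          · exact Nat.le_mul_of_pos_left _ hK0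
          · omega
      _ ≤ 1 := hGμ j
  have hβs : ∑' j, μ (β j) ≠ ⊤ := by
    refine ne_top_of_le_ne_top (b := 1 * 1) (by norm_num) ?_
    rw [← hgeo, ← ENNReal.tsum_mul_left]
    exact ENNReal.tsum_le_tsum fun j => by
      have := hconv j _ _ (hβμ j)
      rw [hgeo]
      exact this
  set E : Set X := ⋃ j : ℕ, (Gs (2 * j) \ ⋃ i ∈ Ioi (2 * j), Gs i) with hE
  have hEm : MeasurableSet E := MeasurableSet.iUnion fun j => (hGm _).diff
    (MeasurableSet.biUnion (to_countable _) fun i _ => hGm i)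
  have hGE : ∀ j, ∀ y ∈ Gs j, (∀ i, j < i → y ∉ Gs i) → (Even j ↔ y ∈ E) := by
    intro j y hy hyi
    constructor
    · rintro ⟨r, hr⟩
      have hr' : j = 2 * r := by omega
      refine mem_iUnion.2 ⟨r, hr' ▸ hy, fun h => ?_⟩
      obtain ⟨i, hi, hyi'⟩ := mem_iUnion₂.1 h
      exact hyi i (by rw [hr']; exact hi) hyi'
    · intro h
      obtain ⟨r, hr1, hr2⟩ := mem_iUnion.1 h
      rcases lt_trichotomy j (2 * r) with hlt | heq | hgt
      · exact absurd hr1 (hyi _ hlt)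
      · exact ⟨r, by omega⟩
      · exact absurd (mem_iUnion₂.2 ⟨j, hgt, hy⟩) hr2
  refine ⟨E, hEm, ?_, ?_⟩
  · have hsub : E ⊆ ⋃ j, Gs j := by
      refine iUnion_subset fun j => ?_
      exact sdiff_subset.trans (subset_iUnion Gs (2 * j))
    have hGμ' : ∀ j, μ (Gs j) ≤ (K : ℝ≥0∞)⁻¹ * (2⁻¹ : ℝ≥0∞) ^ (j + 1) := by
      intro j
      refine hconv j _ _ ?_
      rw [ENNReal.le_inv_iff_mul_le]
      calc ((2 ^ (j + 1) : ℕ) : ℝ≥0∞) * μ (Gs j) * K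
          = ((K * 2 ^ (j + 1) * 1 : ℕ) : ℝ≥0∞) * μ (Gs j) := by push_cast; ring
        _ ≤ ((K * 2 ^ (j + 1) * (w j + 1) : ℕ) : ℝ≥0∞) * μ (Gs j) := by
            gcongr
            omega
        _ ≤ 1 := hGμ j
    calc μ E ≤ μ (⋃ j, Gs j) := measure_mono hsub
      _ ≤ ∑' j, μ (Gs j) := measure_iUnion_le _
      _ ≤ ∑' j : ℕ, (K : ℝ≥0∞)⁻¹ * (2⁻¹ : ℝ≥0∞) ^ (j + 1) := ENNReal.tsum_le_tsum hGμ'
      _ = (K : ℝ≥0∞)⁻¹ := by rw [ENNReal.tsum_mul_left, hgeo, mul_one]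
      _ < ε := hK
  · filter_upwards [ae_eventually_notMem hαs, ae_eventually_notMem hβs] with x h1 h2
    obtain ⟨j₀, hj₀⟩ := eventually_atTop.1 (h1.and h2)
    have key : ∀ j ≥ j₀, ∃ N : ℕ, j + 1 ≤ N ∧
        (Even j → 1 - 1 / ((2 ^ (j + 1) : ℕ) : ℝ) ≤ avg a T E x N) ∧
        (¬ Even j → avg a T E x N ≤ 1 / ((2 ^ (j + 1) : ℕ) : ℝ)) := by
      intro j hj
      have hxα : x ∉ α j := (hj₀ j hj).1
      obtain ⟨N, hN1, hN2, hN3, hN4⟩ := not_not.1 hxα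
      have hlater : ∀ n ∈ Finset.Icc 1 N, ∀ i, j < i → T^[a n] x ∉ Gs i := by
        intro n hn i hi hmem
        have hxβ : x ∉ β i := (hj₀ i (hj.trans hi.le)).2
        apply hxβ
        have hn' := Finset.mem_Icc.1 hn
        exact mem_iUnion₂.2 ⟨n, Finset.mem_Icc.2 ⟨hn'.1, hn'.2.trans (hN3.trans (hNw i j hi))⟩,
          hmem⟩
      refine ⟨N, hN1, fun hev => ?_, fun hodd => ?_⟩
      · exact avg_ge a T E (Gs j) x N (2 ^ (j + 1)) hN2 (by positivity) hN4 fun n hn hmem =>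
          (hGE j _ hmem (hlater n hn)).1 hev
      · exact avg_le a T E (Gs j) x N (2 ^ (j + 1)) hN2 (by positivity) hN4 fun n hn hmem h =>
          hodd ((hGE j _ hmem (hlater n hn)).2 h)
    have hsmall : ∀ δ > (0 : ℝ), ∃ j₁ : ℕ, ∀ j ≥ j₁, 1 / ((2 ^ (j + 1) : ℕ) : ℝ) ≤ δ := by
      intro δ hδ
      obtain ⟨j₁, hj₁⟩ := exists_nat_gt (1 / δ)
      refine ⟨j₁, fun j hj => ?_⟩
      have h3 : (j : ℝ) < ((2 ^ (j + 1) : ℕ) : ℝ) := by
        have : j < 2 ^ (j + 1) := (Nat.lt_succ_self j).trans Nat.lt_two_pow_self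
        exact_mod_cast this
      have h4 : (j₁ : ℝ) ≤ j := by exact_mod_cast hj
      rw [div_le_iff₀ (by positivity)]
      rw [div_lt_iff₀ hδ] at hj₁
      nlinarith
    constructor
    · refine limsup_one _ (avg_le_one a T E x) fun δ hδ N₀ => ?_
      obtain ⟨j₁, hj₁⟩ := hsmall δ hδ
      obtain ⟨N, hN1, hN2, -⟩ := key (2 * (j₀ + j₁ + N₀)) (by omega)
      refine ⟨N, by omega, ?_⟩
      have h5 := hj₁ (2 * (j₀ + j₁ + N₀)) (by omega)
      have h6 := hN2 ⟨j₀ + j₁ + N₀, by ring⟩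
      linarith
    · refine liminf_zero _ (avg_nonneg a T E x) fun δ hδ N₀ => ?_
      obtain ⟨j₁, hj₁⟩ := hsmall δ hδ
      obtain ⟨N, hN1, -, hN2⟩ := key (2 * (j₀ + j₁ + N₀) + 1) (by omega)
      refine ⟨N, by omega, ?_⟩
      have h5 := hj₁ (2 * (j₀ + j₁ + N₀) + 1) (by omega)
      have h6 := hN2 (by rw [Nat.not_even_iff_odd]; exact ⟨j₀ + j₁ + N₀, rfl⟩)
      linarith

end Pool.Agent.Y249.BG
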