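import Pool.Agent.Y249.BG.Translate

set_option autoImplicit false
open Finset

namespace Pool.Agent.Y249.BG

theorem translates2 {Q : ℕ} [NeZero Q] (E F : Finset (ZMod Q)) (hF : F.Nonempty) (p D : ℕ)
    (hp : 0 < p) (h : 2 * p * D * E.card ≤ F.card) :
    ∃ t : Finset (ZMod Q), p * ((Un F t)ᶜ).card ≤ Q ∧ D * (Un E t).card ≤ Q := by
  classical
  have hF0 : 0 < F.card := hF.card_pos
  have hQ0 : 0 < Q := Nat.pos_of_ne_zero (NeZero.ne Q)
  have hQ : (0 : ℝ) < Q := by exact_mod_cast hQ0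
  have hFQ : F.card ≤ Q := by
    have := card_le_univ F
    rwa [ZMod.card] at this
  obtain ⟨t, ht, htc⟩ := greedy F (p * (Q / F.card + 1))
  have hR : Q ≤ (Q / F.card + 1) * F.card := by
    have := Nat.lt_mul_div_succ Q hF0
    rw [mul_comm]
    exact this.le
  have hR' : (Q : ℝ) ≤ ((Q / F.card + 1 : ℕ) : ℝ) * F.card := by exact_mod_cast hR
  have hp' : (0 : ℝ) < p := by exact_mod_cast hp
  refine ⟨t, ?_, ?_⟩
  · have h1 : (Q : ℝ) * (1 - F.card / Q) ^ (p * (Q / F.card + 1)) ≤ Q * (1 / p) := by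
      have h2 : (1 : ℝ) - F.card / Q ≤ Real.exp (-(F.card / Q)) := by
        have := Real.add_one_le_exp (-((F.card : ℝ) / Q))
        linarith
      have h4 : (0 : ℝ) ≤ 1 - F.card / Q := by
        rw [sub_nonneg, div_le_one hQ]
        exact_mod_cast hFQ
      have h5 : (1 - (F.card : ℝ) / Q) ^ (p * (Q / F.card + 1)) ≤ 1 / p := by
        calc (1 - (F.card : ℝ) / Q) ^ (p * (Q / F.card + 1))
            ≤ (Real.exp (-(F.card / Q))) ^ (p * (Q / F.card + 1)) := pow_le_pow_left₀ h4 h2 _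
          _ = Real.exp (((p * (Q / F.card + 1) : ℕ) : ℝ) * (-(F.card / Q))) := by
              rw [← Real.exp_nat_mul]
          _ ≤ Real.exp (-p) := by
              apply Real.exp_le_exp.2
              have h6 : 1 ≤ ((Q / F.card + 1 : ℕ) : ℝ) * (F.card / Q) := by
                rw [← mul_div_assoc, le_div_iff₀ hQ, one_mul]
                exact hR'
              have h7 : ((p * (Q / F.card + 1) : ℕ) : ℝ) * (-(F.card / Q)) =
                  - (p * (((Q / F.card + 1 : ℕ) : ℝ) * (F.card / Q))) := by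
                push_cast
                ring
              rw [h7]
              nlinarith
          _ ≤ 1 / p := by
              rw [Real.exp_neg, ← one_div]
              apply one_div_le_one_div_of_le hp'
              have := Real.add_one_le_exp (p : ℝ)
              linarith
      exact mul_le_mul_of_nonneg_left h5 hQ.le
    have h6 : (((Un F t)ᶜ).card : ℝ) ≤ Q * (1 / p) := htc.trans h1
    rw [mul_one_div, le_div_iff₀ hp'] at h6
    have h9 : (p : ℝ) * ((Un F t)ᶜ).card ≤ Q := by linarith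
    exact_mod_cast h9
  · have h1 : 2 * (D * (Un E t).card) ≤ 2 * Q := by
      calc 2 * (D * (Un E t).card) ≤ 2 * (D * (t.card * E.card)) :=
            Nat.mul_le_mul_left _ (Nat.mul_le_mul_left _ (Un_card_le E t))
        _ ≤ 2 * (D * ((p * (Q / F.card + 1)) * E.card)) :=
            Nat.mul_le_mul_left _ (Nat.mul_le_mul_left _ (Nat.mul_le_mul_right _ ht))
        _ = (Q / F.card + 1) * (2 * p * D * E.card) := by ring
        _ ≤ (Q / F.card + 1) * F.card := Nat.mul_le_mul_left _ h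
        _ = Q / F.card * F.card + F.card := by ring
        _ ≤ Q + Q := Nat.add_le_add (Nat.div_mul_le_self _ _) hFQ
        _ = 2 * Q := by ring
    omega

/-- The combinatorial input moved to a cyclic group, with `F` of almost full density. -/
theorem cyclic2 (a : ℕ → ℕ)
    (h : ∀ p : ℕ, 2 ≤ p → ∀ C Nmin : ℕ, ∃ E F : Finset ℕ, F.Nonempty ∧ C * E.card ≤ F.card ∧
      ∀ x ∈ F, ∃ N : ℕ, Nmin ≤ N ∧ 0 < N ∧
        p * ((Icc 1 N).filter (fun n => x + a n ∉ E)).card ≤ N)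
    (p : ℕ) (hp : 2 ≤ p) (D Nmin : ℕ) :
    ∃ (Q : ℕ) (_ : NeZero Q) (E F : Finset (ZMod Q)) (Nmax : ℕ),
      p * (Fᶜ).card ≤ Q ∧ D * E.card ≤ Q ∧
      ∀ x ∈ F, ∃ N : ℕ, Nmin ≤ N ∧ 0 < N ∧ N ≤ Nmax ∧
        p * ((Icc 1 N).filter (fun n => x + ((a n : ℕ) : ZMod Q) ∉ E)).card ≤ N := by
  classical
  obtain ⟨E, F, hF, hEF, hx⟩ := h p hp (2 * p * D) Nmin
  set Q := F.sup id + 1 with hQ
  have hQ0 : 0 < Q := Nat.succ_pos _
  have hNZ : NeZero Q := ⟨hQ0.ne'⟩
  set E₁ : Finset (ZMod Q) := E.image (fun n : ℕ => (n : ZMod Q)) with hE₁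
  set F₁ : Finset (ZMod Q) := F.image (fun n : ℕ => (n : ZMod Q)) with hF₁
  have hFc : F₁.card = F.card := by
    apply card_image_of_injOn
    intro x hx y hy hxy
    have h1 : x < Q := Nat.lt_succ_of_le (le_sup (f := id) (mem_coe.1 hx))
    have h2 : y < Q := Nat.lt_succ_of_le (le_sup (f := id) (mem_coe.1 hy))
    have h3 := congrArg ZMod.val hxy
    simp only [ZMod.val_natCast] at h3
    rwa [Nat.mod_eq_of_lt h1, Nat.mod_eq_of_lt h2] at h3
  obtain ⟨t, ht1, ht2⟩ := translates2 E₁ F₁ (hF.image _) p D (by omega)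
    ((Nat.mul_le_mul_left _ card_image_le).trans (hEF.trans hFc.ge))
  have key : ∀ x ∈ Un F₁ t, ∃ N : ℕ, Nmin ≤ N ∧ 0 < N ∧
      p * ((Icc 1 N).filter (fun n => x + ((a n : ℕ) : ZMod Q) ∉ Un E₁ t)).card ≤ N := by
    intro x hxF
    obtain ⟨s, hs, hxs⟩ := mem_Un.1 hxF
    obtain ⟨y, hy, hyx⟩ := mem_image.1 hxs
    obtain ⟨N, hN, hN0, hN2⟩ := hx y hy
    refine ⟨N, hN, hN0, le_trans (Nat.mul_le_mul_left _ (card_le_card ?_)) hN2⟩
    intro n hn
    rw [mem_filter] at hn ⊢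
    refine ⟨hn.1, fun hmem => hn.2 (mem_Un.2 ⟨s, hs, mem_image.2 ⟨y + a n, hmem, ?_⟩⟩)⟩
    push_cast
    rw [hyx]
    ring
  choose! f hf1 hf2 hf3 using key
  refine ⟨Q, hNZ, Un E₁ t, Un F₁ t, (Un F₁ t).sup f, ht1, ht2, ?_⟩
  intro x hxF
  exact ⟨f x, hf1 x hxF, hf2 x hxF, le_sup hxF, hf3 x hxF⟩

end Pool.Agent.Y249.BG
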