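import Mathlib

set_option autoImplicit false
open Finset MeasureTheory
open scoped ENNReal

namespace Pool.Agent.Y249.BG

/-- The uniform probability measure on `ZMod Q`. -/
noncomputable def uni (Q : ℕ) : Measure (ZMod Q) := (Q : ℝ≥0∞)⁻¹ • Measure.count

theorem uni_apply (Q : ℕ) (E : Finset (ZMod Q)) : uni Q (E : Set (ZMod Q)) = E.card / Q := by
  unfold uni
  rw [Measure.smul_apply, Measure.count_apply_finset, smul_eq_mul, ENNReal.div_eq_inv_mul]

theorem uni_prob (Q : ℕ) (hQ : 0 < Q) : IsProbabilityMeasure (uni Q) := by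
  have : NeZero Q := ⟨hQ.ne'⟩
  constructor
  have h := uni_apply Q univ
  rw [coe_univ] at h
  rw [h, card_univ, ZMod.card]
  exact ENNReal.div_self (by exact_mod_cast hQ.ne') (ENNReal.natCast_ne_top _)

theorem uni_map (Q : ℕ) : (uni Q).map (fun x => x + 1) = uni Q := by
  unfold uni
  rw [Measure.map_smul]
  congr 1
  ext s hs
  rw [Measure.map_apply measurable_from_top hs]
  have h1 : (fun x : ZMod Q => x + 1) '' ((fun x => x + 1) ⁻¹' s) = s :=
    Set.image_preimage_eq s (fun y => ⟨y - 1, by simp⟩)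
  conv_rhs => rw [← h1]
  rw [Measure.count_injective_image (fun x y h => by simpa using h)]

section

variable (Q : ℕ → ℕ) (E F : ∀ s, Finset (ZMod (Q s)))

/-- The shift on the product of cyclic groups. -/
def Tm (x : ∀ s, ZMod (Q s)) : ∀ s, ZMod (Q s) := fun s => x s + 1

theorem Tm_iter (n : ℕ) (x : ∀ s, ZMod (Q s)) (s : ℕ) : ((Tm Q)^[n] x) s = x s + n := by
  induction n with
  | zero => simp
  | succ n ih =>
    rw [Function.iterate_succ_apply']
    unfold Tm at ih ⊢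
    rw [ih]
    push_cast
    ring

theorem Tm_mp (hQ : ∀ s, 0 < Q s) :
    haveI : ∀ s, IsProbabilityMeasure (uni (Q s)) := fun s => uni_prob _ (hQ s)
    MeasurePreserving (Tm Q) (Measure.infinitePi (fun s => uni (Q s)))
      (Measure.infinitePi (fun s => uni (Q s))) := by
  have : ∀ s, IsProbabilityMeasure (uni (Q s)) := fun s => uni_prob _ (hQ s)
  refine ⟨?_, ?_⟩
  · unfold Tm
    refine measurable_pi_lambda _ fun s => ?_
    have h1 : Measurable (fun x : ZMod (Q s) => x + 1) := measurable_from_top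
    exact h1.comp (measurable_pi_apply s)
  · have h := Measure.infinitePi_map_pi (fun s => uni (Q s)) (f := fun s (x : ZMod (Q s)) => x + 1)
      (fun s => measurable_from_top)
    unfold Tm
    rw [h]
    congr 1
    ext1 s
    exact uni_map _

/-- The set of points whose coordinate `s` lies in `E s`. -/
def Cy (s : ℕ) : Set (∀ s, ZMod (Q s)) := {x | x s ∈ E s}

theorem Cy_meas (s : ℕ) : MeasurableSet (Cy Q E s) := by
  have : Cy Q E s = (fun x : ∀ s, ZMod (Q s) => x s) ⁻¹' (E s : Set (ZMod (Q s))) := rfl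
  rw [this]
  exact measurable_pi_apply s (Finset.measurableSet _)

theorem Cy_measure (hQ : ∀ s, 0 < Q s) (s : ℕ) :
    haveI : ∀ s, IsProbabilityMeasure (uni (Q s)) := fun s => uni_prob _ (hQ s)
    Measure.infinitePi (fun s => uni (Q s)) (Cy Q E s) = (E s).card / Q s := by
  have : ∀ s, IsProbabilityMeasure (uni (Q s)) := fun s => uni_prob _ (hQ s)
  have h := Measure.infinitePi_map_eval (fun s => uni (Q s)) s
  rw [← uni_apply, ← h, Measure.map_apply (measurable_pi_apply s) (Finset.measurableSet _)]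
  rfl

/-- The (extended) test function. -/
noncomputable def hh (x : ∀ s, ZMod (Q s)) : ℝ≥0∞ :=
  ⨆ s : ℕ, (Cy Q E s).indicator (fun _ => (s : ℝ≥0∞)) x

theorem hh_meas : Measurable (hh Q E) :=
  Measurable.iSup fun s => measurable_const.indicator (Cy_meas Q E s)

theorem hh_sq (x : ∀ s, ZMod (Q s)) : (hh Q E x) ^ (2 : ℝ) ≤
    ∑' s : ℕ, (Cy Q E s).indicator (fun _ => (s : ℝ≥0∞) ^ (2 : ℝ)) x := by
  rw [← ENNReal.le_rpow_inv_iff (by norm_num)]
  unfold hh
  refine iSup_le fun s => ?_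
  rw [ENNReal.le_rpow_inv_iff (by norm_num)]
  refine le_trans ?_ (ENNReal.le_tsum s)
  by_cases hx : x ∈ Cy Q E s
  · rw [Set.indicator_of_mem hx, Set.indicator_of_mem hx]
  · rw [Set.indicator_of_notMem hx, Set.indicator_of_notMem hx]
    rw [ENNReal.zero_rpow_of_pos (by norm_num)]

theorem hh_int (hQ : ∀ s, 0 < Q s) (hE : ∀ s, (s + 1) ^ 2 * 2 ^ s * (E s).card ≤ 2 * Q s) :
    haveI : ∀ s, IsProbabilityMeasure (uni (Q s)) := fun s => uni_prob _ (hQ s)
    ∫⁻ x, (hh Q E x) ^ (2 : ℝ) ∂(Measure.infinitePi (fun s => uni (Q s))) < ⊤ := by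
  have : ∀ s, IsProbabilityMeasure (uni (Q s)) := fun s => uni_prob _ (hQ s)
  refine lt_of_le_of_lt (lintegral_mono (hh_sq Q E)) ?_
  rw [lintegral_tsum (fun s => (measurable_const.indicator (Cy_meas Q E s)).aemeasurable)]
  have h1 : ∀ s : ℕ, ∫⁻ x, (Cy Q E s).indicator (fun _ => (s : ℝ≥0∞) ^ (2 : ℝ)) x
      ∂(Measure.infinitePi (fun s => uni (Q s))) ≤ 2 * (2⁻¹ : ℝ≥0∞) ^ s := by
    intro s
    rw [lintegral_indicator_const (Cy_meas Q E s), Cy_measure Q E hQ s]
    have e1 : (s : ℝ≥0∞) ^ (2 : ℝ) = (s : ℝ≥0∞) ^ 2 := by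
      rw [← ENNReal.rpow_natCast]; norm_num
    rw [e1, ← mul_div_assoc]
    have hQs : (Q s : ℝ≥0∞) ≠ 0 := by exact_mod_cast (hQ s).ne'
    rw [ENNReal.div_le_iff hQs (ENNReal.natCast_ne_top _)]
    have h2 : (s : ℝ≥0∞) ^ 2 * (2 : ℝ≥0∞) ^ s * (E s).card ≤ 2 * Q s := by
      have : s ^ 2 * 2 ^ s * (E s).card ≤ 2 * Q s := by
        refine le_trans ?_ (hE s)
        gcongr
        omega
      exact_mod_cast this
    have h3 : (2⁻¹ : ℝ≥0∞) ^ s * (2 : ℝ≥0∞) ^ s = 1 := by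
      rw [← mul_pow, ENNReal.inv_mul_cancel (by norm_num) (by norm_num), one_pow]
    calc (s : ℝ≥0∞) ^ 2 * (E s).card
        = ((2⁻¹ : ℝ≥0∞) ^ s * (2 : ℝ≥0∞) ^ s) * ((s : ℝ≥0∞) ^ 2 * (E s).card) := by
          rw [h3, one_mul]
      _ = (2⁻¹ : ℝ≥0∞) ^ s * ((s : ℝ≥0∞) ^ 2 * (2 : ℝ≥0∞) ^ s * (E s).card) := by ring
      _ ≤ (2⁻¹ : ℝ≥0∞) ^ s * (2 * Q s) := by gcongr
      _ = 2 * (2⁻¹ : ℝ≥0∞) ^ s * Q s := by ring
  refine lt_of_le_of_lt (ENNReal.tsum_le_tsum h1) ?_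
  rw [ENNReal.tsum_mul_left, ENNReal.tsum_geometric]
  norm_num

theorem limsup_pos (hQ : ∀ s, 0 < Q s) (hF : ∀ s, Q s ≤ 2 * (F s).card) :
    haveI : ∀ s, IsProbabilityMeasure (uni (Q s)) := fun s => uni_prob _ (hQ s)
    Measure.infinitePi (fun s => uni (Q s)) (⋂ k : ℕ, ⋃ s ≥ k, Cy Q F s) ≠ 0 := by
  have : ∀ s, IsProbabilityMeasure (uni (Q s)) := fun s => uni_prob _ (hQ s)
  have hm : ∀ k : ℕ, MeasurableSet (⋃ s ≥ k, Cy Q F s) := fun k =>
    MeasurableSet.iUnion fun s => MeasurableSet.iUnion fun _ => Cy_meas Q F s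
  have ht := tendsto_measure_iInter_atTop (μ := Measure.infinitePi (fun s => uni (Q s)))
    (s := fun k : ℕ => ⋃ s ≥ k, Cy Q F s) (fun k => (hm k).nullMeasurableSet)
    (fun i j hij => Set.iUnion_mono fun s => Set.iUnion_mono' fun hs => ⟨le_trans hij hs, le_rfl⟩)
    ⟨0, measure_ne_top _ _⟩
  have hge : (2⁻¹ : ℝ≥0∞) ≤
      Measure.infinitePi (fun s => uni (Q s)) (⋂ k : ℕ, ⋃ s ≥ k, Cy Q F s) := by
    refine ge_of_tendsto' ht fun k => ?_
    have h1 : (2⁻¹ : ℝ≥0∞) ≤ Measure.infinitePi (fun s => uni (Q s)) (Cy Q F k) := by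
      rw [Cy_measure Q F hQ k]
      have hQs : (Q k : ℝ≥0∞) ≠ 0 := by exact_mod_cast (hQ k).ne'
      rw [ENNReal.le_div_iff_mul_le (Or.inl hQs) (Or.inl (ENNReal.natCast_ne_top _))]
      have h2 : (Q k : ℝ≥0∞) ≤ 2 * (F k).card := by exact_mod_cast hF k
      calc (2⁻¹ : ℝ≥0∞) * Q k ≤ 2⁻¹ * (2 * (F k).card) := by gcongr
        _ = (F k).card := by
          rw [← mul_assoc, ENNReal.inv_mul_cancel (by norm_num) (by norm_num), one_mul]
    refine h1.trans (measure_mono ?_)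
    exact Set.subset_iUnion₂_of_subset k le_rfl le_rfl
  intro h0
  rw [h0] at hge
  simp at hge

end

theorem system (a : ℕ → ℕ) (c : ℕ)
    (h : ∀ C : ℕ, ∃ Q : ℕ, 0 < Q ∧ ∃ E F : Finset (ZMod Q), Q ≤ 2 * F.card ∧
      C * E.card ≤ 2 * Q ∧ ∀ x ∈ F, ∃ N : ℕ, 0 < N ∧
        N ≤ c * ((range N).filter (fun n => x + ((a n : ℕ) : ZMod Q) ∈ E)).card) :
    ∃ (Ω : Type) (_ : MeasurableSpace Ω) (μ : Measure Ω)
        (_ : IsProbabilityMeasure μ) (T : Ω → Ω)
        (_ : MeasurePreserving T μ μ) (f : Ω → ℝ),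
        MemLp f 2 μ ∧
        ¬ (∀ᵐ x ∂μ, ∃ L : ℝ,
            Filter.Tendsto
              (fun N : ℕ => (1 / (N : ℝ)) * ∑ n ∈ Finset.range N, f (T^[a n] x))
              Filter.atTop (nhds L)) := by
  classical
  choose Q hQ E F hF hE hN using fun s : ℕ => h ((s + 1) ^ 2 * 2 ^ s)
  have : ∀ s, IsProbabilityMeasure (uni (Q s)) := fun s => uni_prob _ (hQ s)
  set μ := Measure.infinitePi (fun s => uni (Q s)) with hμ
  have hmp : MeasurePreserving (Tm Q) μ μ := Tm_mp Q hQ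
  refine ⟨∀ s, ZMod (Q s), inferInstance, μ, inferInstance, Tm Q, hmp,
    fun x => (hh Q E x).toReal, ?_, ?_⟩
  · refine ⟨(hh_meas Q E).ennreal_toReal.aestronglyMeasurable, ?_⟩
    rw [eLpNorm_lt_top_iff_lintegral_rpow_enorm_lt_top (by norm_num) (by norm_num)]
    refine lt_of_le_of_lt (lintegral_mono fun x => ?_) (hh_int Q E hQ hE)
    have e : (2 : ℝ≥0∞).toReal = (2 : ℝ) := by norm_num
    rw [e]
    refine ENNReal.rpow_le_rpow ?_ (by norm_num)
    rw [Real.enorm_eq_ofReal ENNReal.toReal_nonneg]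
    exact ENNReal.ofReal_toReal_le
  · intro hconv
    have hfin : ∀ᵐ x ∂μ, hh Q E x < ⊤ := by
      have h1 := ae_lt_top ((hh_meas Q E).pow_const (2 : ℝ)) (hh_int Q E hQ hE).ne
      filter_upwards [h1] with x hx
      by_contra hcon
      rw [not_lt, top_le_iff] at hcon
      rw [hcon, ENNReal.top_rpow_of_pos (by norm_num)] at hx
      exact lt_irrefl _ hx
    have hfin' : ∀ᵐ x ∂μ, ∀ n : ℕ, hh Q E ((Tm Q)^[n] x) < ⊤ := by
      rw [ae_all_iff]
      intro n
      exact (hmp.iterate n).quasiMeasurePreserving.tendsto_ae hfin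
    have hnot : ∀ᵐ x ∂μ, x ∉ (⋂ k : ℕ, ⋃ s ≥ k, Cy Q F s) := by
      filter_upwards [hconv, hfin'] with x hx hxf hmem
      obtain ⟨L, hL⟩ := hx
      obtain ⟨M, hM⟩ := hL.bddAbove_range
      have hM' : ∀ N : ℕ, (1 / (N : ℝ)) *
          ∑ n ∈ Finset.range N, (hh Q E ((Tm Q)^[a n] x)).toReal ≤ M :=
        fun N => hM ⟨N, rfl⟩
      rw [Set.mem_iInter] at hmem
      obtain ⟨k, hk⟩ := exists_nat_gt ((c : ℝ) * M)
      obtain ⟨s, hs⟩ := Set.mem_iUnion.1 (hmem k)
      obtain ⟨hsk, hxs⟩ := Set.mem_iUnion.1 hs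
      obtain ⟨N, hN0, hN1⟩ := hN s (x s) hxs
      have h1 := hM' N
      have hN0' : (0 : ℝ) < N := by exact_mod_cast hN0
      set G := (range N).filter (fun n => x s + ((a n : ℕ) : ZMod (Q s)) ∈ E s) with hG
      have h2 : (G.card : ℝ) * s ≤
          ∑ n ∈ Finset.range N, (hh Q E ((Tm Q)^[a n] x)).toReal := by
        calc (G.card : ℝ) * s = ∑ n ∈ G, (s : ℝ) := by rw [sum_const, nsmul_eq_mul]
          _ ≤ ∑ n ∈ G, (hh Q E ((Tm Q)^[a n] x)).toReal := by
              refine sum_le_sum fun n hn => ?_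
              have hmemE : (Tm Q)^[a n] x ∈ Cy Q E s := by
                have : ((Tm Q)^[a n] x) s ∈ E s := by
                  rw [Tm_iter]
                  exact (mem_filter.1 hn).2
                exact this
              have h3 : (s : ℝ≥0∞) ≤ hh Q E ((Tm Q)^[a n] x) := by
                unfold hh
                refine le_trans ?_ (le_iSup _ s)
                rw [Set.indicator_of_mem hmemE]
              have h4 := ENNReal.toReal_mono (hxf (a n)).ne h3
              simpa using h4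
          _ ≤ _ := sum_le_sum_of_subset_of_nonneg (filter_subset _ _)
              (fun _ _ _ => ENNReal.toReal_nonneg)
      have h5 : (N : ℝ) ≤ c * G.card := by exact_mod_cast hN1
      have h6 : (G.card : ℝ) * s ≤ M * N := by
        rw [one_div, inv_mul_le_iff₀ hN0'] at h1
        linarith
      have h7 : (c : ℝ) * M < s := hk.trans_le (by exact_mod_cast hsk)
      have hc : (0 : ℝ) ≤ c := Nat.cast_nonneg c
      have h8 : (N : ℝ) * s ≤ c * (G.card * s) := by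
        have : (0 : ℝ) ≤ s := Nat.cast_nonneg s
        nlinarith
      have h9 : (N : ℝ) * s ≤ c * (M * N) := h8.trans (mul_le_mul_of_nonneg_left h6 hc)
      nlinarith
    have h0 : μ (⋂ k : ℕ, ⋃ s ≥ k, Cy Q F s) = 0 := by
      rw [ae_iff] at hnot
      have e : {x | ¬ x ∉ (⋂ k : ℕ, ⋃ s ≥ k, Cy Q F s)} = ⋂ k : ℕ, ⋃ s ≥ k, Cy Q F s := by
        ext x
        exact not_not
      rwa [e] at hnot
    exact limsup_pos Q F hQ hF h0

end Pool.Agent.Y249.BG
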