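import Pool.Agent.Y249.BG.Growth

set_option autoImplicit false
open Finset

namespace Pool.Agent.Y249.BG

section

variable {Q : ℕ} [NeZero Q]

/-- Union of the translates of `F` by the elements of `t`. -/
def Un (F t : Finset (ZMod Q)) : Finset (ZMod Q) := t.biUnion (fun s => F.image (· + s))

theorem mem_Un {F t : Finset (ZMod Q)} {x : ZMod Q} : x ∈ Un F t ↔ ∃ s ∈ t, x - s ∈ F := by
  unfold Un
  simp only [mem_biUnion, mem_image]
  constructor
  · rintro ⟨s, hs, y, hy, rfl⟩
    exact ⟨s, hs, by simpa using hy⟩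
  · rintro ⟨s, hs, h⟩
    exact ⟨s, hs, x - s, h, by simp⟩

theorem Un_card_le (F t : Finset (ZMod Q)) : (Un F t).card ≤ t.card * F.card :=
  card_biUnion_le_card_mul _ _ _ fun _ _ => card_image_le

theorem exists_shift (F U : Finset (ZMod Q)) :
    ∃ s : ZMod Q, (U.filter (fun u => u - s ∉ F)).card * Q ≤ U.card * (Q - F.card) := by
  classical
  by_contra hcon
  push Not at hcon
  have h1 : ∑ _s : ZMod Q, U.card * (Q - F.card) <
      ∑ s : ZMod Q, (U.filter (fun u => u - s ∉ F)).card * Q :=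
    sum_lt_sum_of_nonempty univ_nonempty fun s _ => hcon s
  rw [sum_const, card_univ, ZMod.card, smul_eq_mul, ← sum_mul] at h1
  have h2 : ∑ s : ZMod Q, (U.filter (fun u => u - s ∉ F)).card = U.card * (Q - F.card) := by
    simp_rw [card_filter]
    rw [sum_comm]
    have h3 : ∀ u ∈ U, (∑ s : ZMod Q, if u - s ∉ F then 1 else 0) = Q - F.card := by
      intro u _
      rw [← card_filter]
      have h4 : (univ.filter (fun s : ZMod Q => u - s ∉ F)) = (F.image (fun y => u - y))ᶜ := by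
        ext s
        simp only [mem_filter, mem_univ, true_and, mem_compl, mem_image, not_exists, not_and]
        constructor
        · rintro h y hy rfl
          exact h (by simpa using hy)
        · intro h hF
          exact h _ hF (by simp)
      rw [h4, card_compl, ZMod.card, card_image_of_injective _ (fun y z h => by simpa using h)]
    rw [sum_congr rfl h3, sum_const, smul_eq_mul]
  rw [h2] at h1
  rw [mul_comm] at h1
  exact lt_irrefl _ h1

theorem greedy (F : Finset (ZMod Q)) (R : ℕ) :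
    ∃ t : Finset (ZMod Q), t.card ≤ R ∧
      (((Un F t)ᶜ).card : ℝ) ≤ Q * (1 - F.card / Q) ^ R := by
  classical
  have hQ : (0 : ℝ) < Q := by exact_mod_cast Nat.pos_of_ne_zero (NeZero.ne Q)
  have hFQ : F.card ≤ Q := by
    have := card_le_univ F
    rwa [ZMod.card] at this
  induction R with
  | zero =>
    refine ⟨∅, by simp, ?_⟩
    have := card_le_univ ((Un F ∅)ᶜ)
    rw [ZMod.card] at this
    have : ((((Un F ∅)ᶜ).card : ℕ) : ℝ) ≤ Q := by exact_mod_cast this
    simpa using this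
  | succ R ih =>
    obtain ⟨t, ht, htc⟩ := ih
    obtain ⟨s, hs⟩ := exists_shift F ((Un F t)ᶜ)
    refine ⟨insert s t, (card_insert_le _ _).trans (by omega), ?_⟩
    have h1 : (Un F (insert s t))ᶜ = ((Un F t)ᶜ).filter (fun u => u - s ∉ F) := by
      ext x
      simp only [mem_compl, mem_filter, mem_Un, mem_insert, not_exists, not_and]
      constructor
      · intro h
        exact ⟨fun y hy => h y (Or.inr hy), h s (Or.inl rfl)⟩
      · rintro ⟨h1, h2⟩ y (rfl | hy)
        · exact h2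
        · exact h1 y hy
    rw [h1]
    have h2 : (((((Un F t)ᶜ).filter (fun u => u - s ∉ F)).card : ℕ) : ℝ) * Q ≤
        (((Un F t)ᶜ).card : ℝ) * (Q - F.card) := by
      have h := hs
      have h' : ((((((Un F t)ᶜ).filter (fun u => u - s ∉ F)).card * Q : ℕ)) : ℝ) ≤
        ((((Un F t)ᶜ).card * (Q - F.card) : ℕ) : ℝ) := by exact_mod_cast h
      rw [Nat.cast_mul, Nat.cast_mul, Nat.cast_sub hFQ] at h'
      exact h'
    have hFQ' : (F.card : ℝ) ≤ Q := by exact_mod_cast hFQ
    have h3 : (((((Un F t)ᶜ).filter (fun u => u - s ∉ F)).card : ℕ) : ℝ) ≤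
        (((Un F t)ᶜ).card : ℝ) * (1 - F.card / Q) := by
      have e : (1 : ℝ) - F.card / Q = (Q - F.card) / Q := by field_simp
      rw [e, ← mul_div_assoc, le_div_iff₀ hQ]
      exact h2
    have h4 : (0 : ℝ) ≤ 1 - F.card / Q := by
      rw [sub_nonneg, div_le_one hQ]
      exact hFQ'
    calc (((((Un F t)ᶜ).filter (fun u => u - s ∉ F)).card : ℕ) : ℝ)
        ≤ (((Un F t)ᶜ).card : ℝ) * (1 - F.card / Q) := h3
      _ ≤ (Q * (1 - F.card / Q) ^ R) * (1 - F.card / Q) := mul_le_mul_of_nonneg_right htc h4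
      _ = Q * (1 - F.card / Q) ^ (R + 1) := by ring

theorem translates (E F : Finset (ZMod Q)) (hF : F.Nonempty) (C : ℕ) (h : C * E.card ≤ F.card) :
    ∃ t : Finset (ZMod Q), Q ≤ 2 * (Un F t).card ∧ C * (Un E t).card ≤ 2 * Q := by
  classical
  have hF0 : 0 < F.card := hF.card_pos
  have hQ0 : 0 < Q := Nat.pos_of_ne_zero (NeZero.ne Q)
  have hQ : (0 : ℝ) < Q := by exact_mod_cast hQ0
  have hFQ : F.card ≤ Q := by
    have := card_le_univ F
    rwa [ZMod.card] at this
  obtain ⟨t, ht, htc⟩ := greedy F (Q / F.card + 1)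
  have hR : Q ≤ (Q / F.card + 1) * F.card := by
    have := Nat.lt_mul_div_succ Q hF0
    rw [mul_comm]
    exact this.le
  have hR' : (Q : ℝ) ≤ ((Q / F.card + 1 : ℕ) : ℝ) * F.card := by exact_mod_cast hR
  refine ⟨t, ?_, ?_⟩
  · have h1 : (Q : ℝ) * (1 - F.card / Q) ^ (Q / F.card + 1) ≤ Q / 2 := by
      have h2 : (1 : ℝ) - F.card / Q ≤ Real.exp (-(F.card / Q)) := by
        have := Real.add_one_le_exp (-((F.card : ℝ) / Q))
        linarith
      have h4 : (0 : ℝ) ≤ 1 - F.card / Q := by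
        rw [sub_nonneg, div_le_one hQ]
        exact_mod_cast hFQ
      have h5 : (1 - (F.card : ℝ) / Q) ^ (Q / F.card + 1) ≤ 1 / 2 := by
        calc (1 - (F.card : ℝ) / Q) ^ (Q / F.card + 1)
            ≤ (Real.exp (-(F.card / Q))) ^ (Q / F.card + 1) := pow_le_pow_left₀ h4 h2 _
          _ = Real.exp (((Q / F.card + 1 : ℕ) : ℝ) * (-(F.card / Q))) := by
              rw [← Real.exp_nat_mul]
          _ ≤ Real.exp (-1) := by
              apply Real.exp_le_exp.2
              have : 1 ≤ ((Q / F.card + 1 : ℕ) : ℝ) * (F.card / Q) := by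
                rw [← mul_div_assoc, le_div_iff₀ hQ, one_mul]
                exact hR'
              linarith
          _ ≤ 1 / 2 := by
              rw [Real.exp_neg, ← one_div]
              apply one_div_le_one_div_of_le (by norm_num)
              have := Real.exp_one_gt_d9
              linarith
      have := mul_le_mul_of_nonneg_left h5 hQ.le
      linarith
    have h6 : (((Un F t)ᶜ).card : ℝ) ≤ Q / 2 := htc.trans h1
    have h7 : (Un F t).card + ((Un F t)ᶜ).card = Q := by
      rw [card_add_card_compl, ZMod.card]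
    have h8 : ((Un F t).card : ℝ) + ((Un F t)ᶜ).card = Q := by exact_mod_cast h7
    have h9 : (Q : ℝ) ≤ 2 * (Un F t).card := by linarith
    exact_mod_cast h9
  · calc C * (Un E t).card ≤ C * (t.card * E.card) := Nat.mul_le_mul_left _ (Un_card_le E t)
      _ ≤ C * ((Q / F.card + 1) * E.card) :=
          Nat.mul_le_mul_left _ (Nat.mul_le_mul_right _ ht)
      _ = (Q / F.card + 1) * (C * E.card) := by ring
      _ ≤ (Q / F.card + 1) * F.card := Nat.mul_le_mul_left _ h
      _ = Q / F.card * F.card + F.card := by ring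
      _ ≤ Q + Q := Nat.add_le_add (Nat.div_mul_le_self _ _) hFQ
      _ = 2 * Q := by ring

end

/-- The combinatorial input moved to a cyclic group, with `F` of density at least one half. -/
theorem cyclic (a : ℕ → ℕ) (c : ℕ) (h : ∀ C : ℕ, ∃ E F : Finset ℕ, F.Nonempty ∧ C * E.card ≤ F.card ∧
      ∀ x ∈ F, ∃ N : ℕ, 0 < N ∧ N ≤ c * ((range N).filter (fun n => x + a n ∈ E)).card) (C : ℕ) :
    ∃ Q : ℕ, 0 < Q ∧ ∃ E F : Finset (ZMod Q), Q ≤ 2 * F.card ∧ C * E.card ≤ 2 * Q ∧
      ∀ x ∈ F, ∃ N : ℕ, 0 < N ∧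
        N ≤ c * ((range N).filter (fun n => x + ((a n : ℕ) : ZMod Q) ∈ E)).card := by
  classical
  obtain ⟨E, F, hF, hEF, hx⟩ := h C
  set Q := F.sup id + 1 with hQ
  have hQ0 : 0 < Q := Nat.succ_pos _
  haveI : NeZero Q := ⟨hQ0.ne'⟩
  set E₁ : Finset (ZMod Q) := E.image (fun n : ℕ => (n : ZMod Q)) with hE₁
  set F₁ : Finset (ZMod Q) := F.image (fun n : ℕ => (n : ZMod Q)) with hF₁
  have hFc : F₁.card = F.card := by
    apply card_image_of_injOn
    intro x hx y hy hxy
    have h1 : x < Q := Nat.lt_succ_of_le (le_sup (f := id) (mem_coe.1 hx))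
    have h2 : y < Q := Nat.lt_succ_of_le (le_sup (f := id) (mem_coe.1 hy))
    have h3 := congrArg ZMod.val hxy
    simp only [ZMod.val_natCast] at h3
    rwa [Nat.mod_eq_of_lt h1, Nat.mod_eq_of_lt h2] at h3
  obtain ⟨t, ht1, ht2⟩ := translates E₁ F₁ (hF.image _) C
    ((Nat.mul_le_mul_left _ card_image_le).trans (hEF.trans hFc.ge))
  refine ⟨Q, hQ0, Un E₁ t, Un F₁ t, ht1, ht2, ?_⟩
  intro x hxF
  obtain ⟨s, hs, hxs⟩ := mem_Un.1 hxF
  obtain ⟨y, hy, hyx⟩ := mem_image.1 hxs
  obtain ⟨N, hN, hN2⟩ := hx y hy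
  refine ⟨N, hN, hN2.trans (Nat.mul_le_mul_left _ (card_le_card ?_))⟩
  intro n hn
  rw [mem_filter] at hn ⊢
  refine ⟨hn.1, mem_Un.2 ⟨s, hs, mem_image.2 ⟨y + a n, hn.2, ?_⟩⟩⟩
  push_cast
  rw [hyx]
  ring

end Pool.Agent.Y249.BG
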