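import Mathlib

set_option autoImplicit false
open Finset

namespace Pool.Agent.Y249.BG

/-- A finite set of indices is allowed when the gap after each index dominates all lower terms. -/
def Allowed (a : ℕ → ℕ) (S : Finset ℕ) : Prop :=
  ∀ n ∈ S, ∀ m ∈ S, n < m → a m + a (n + 1) ≤ a (m + 1)

theorem Allowed.mono {a : ℕ → ℕ} {S T : Finset ℕ} (h : Allowed a T) (hST : S ⊆ T) : Allowed a S :=
  fun n hn m hm hnm => h n (hST hn) m (hST hm) hnm

theorem sum_lt (a : ℕ → ℕ) (N₀ : ℕ) (hmono : ∀ n, N₀ ≤ n → a n < a (n + 1)) (S : Finset ℕ) :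
    (∀ n ∈ S, N₀ ≤ n) → Allowed a S → ∀ m ∈ S, (∀ x ∈ S, x ≤ m) →
      ∑ n ∈ S, a n < a (m + 1) := by
  induction S using Finset.induction_on_max with
  | empty => simp
  | insert m S hm ih =>
    intro h1 h2 m' hm' hmax
    have hmm : m' = m := by
      rcases mem_insert.1 hm' with h | h
      · exact h
      · have := hm _ h
        have := hmax m (mem_insert_self _ _)
        omega
    subst hmm
    rw [sum_insert (fun h => (hm _ h).ne rfl)]
    by_cases hS : S.Nonempty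
    · obtain ⟨p, hp, hpm⟩ : ∃ p ∈ S, ∀ x ∈ S, x ≤ p :=
        ⟨S.max' hS, S.max'_mem hS, fun x hx => S.le_max' x hx⟩
      have h3 := ih (fun n hn => h1 n (mem_insert_of_mem hn))
        (h2.mono (subset_insert _ _)) p hp hpm
      have h4 := h2 p (mem_insert_of_mem hp) m' (mem_insert_self _ _) (hm p hp)
      omega
    · rw [not_nonempty_iff_eq_empty.1 hS]
      simpa using hmono m' (h1 m' (mem_insert_self _ _))

theorem mono_le (a : ℕ → ℕ) (N₀ : ℕ) (hmono : ∀ n, N₀ ≤ n → a n < a (n + 1)) (m n : ℕ)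
    (hm : N₀ ≤ m) (hmn : m ≤ n) : a m ≤ a n := by
  induction n, hmn using Nat.le_induction with
  | base => exact le_rfl
  | succ n hn ih => exact ih.trans (hmono n (hm.trans hn)).le

theorem sum_inj_aux (a : ℕ → ℕ) (N₀ : ℕ) (hmono : ∀ n, N₀ ≤ n → a n < a (n + 1))
    (D D' : Finset ℕ) (hD : ∀ n ∈ D, N₀ ≤ n) (hA : Allowed a D)
    (m m' : ℕ) (hm : m ∈ D) (hmax : ∀ x ∈ D, x ≤ m) (hm' : m' ∈ D') (hlt : m < m') :
    ∑ n ∈ D, a n < ∑ n ∈ D', a n := by
  have h1 := sum_lt a N₀ hmono D hD hA m hm hmax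
  have h2 := mono_le a N₀ hmono (m + 1) m' (by have := hD m hm; omega) hlt
  have h3 : a m' ≤ ∑ n ∈ D', a n := single_le_sum (f := a) (fun _ _ => Nat.zero_le _) hm'
  omega

theorem sum_inj (a : ℕ → ℕ) (hpos : ∀ n, 0 < a n) (N₀ : ℕ)
    (hmono : ∀ n, N₀ ≤ n → a n < a (n + 1))
    (S S' : Finset ℕ) (hS : ∀ n ∈ S, N₀ ≤ n) (hS' : ∀ n ∈ S', N₀ ≤ n)
    (hA : Allowed a S) (hA' : Allowed a S') (h : ∑ n ∈ S, a n = ∑ n ∈ S', a n) : S = S' := by
  by_contra hne
  have e1 : ∑ n ∈ S, a n = ∑ n ∈ S \ S', a n + ∑ n ∈ S ∩ S', a n := by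
    rw [← sum_union (by
      rw [Finset.disjoint_left]; intro x hx hx'
      exact (mem_sdiff.1 hx).2 (mem_inter.1 hx').2)]
    rw [sdiff_union_inter]
  have e2 : ∑ n ∈ S', a n = ∑ n ∈ S' \ S, a n + ∑ n ∈ S ∩ S', a n := by
    rw [← sum_union (by
      rw [Finset.disjoint_left]; intro x hx hx'
      exact (mem_sdiff.1 hx).2 (mem_inter.1 hx').1)]
    rw [inter_comm, sdiff_union_inter]
  have e3 : ∑ n ∈ S \ S', a n = ∑ n ∈ S' \ S, a n := by omega
  have key : (S \ S').Nonempty ∧ (S' \ S).Nonempty := by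
    have hor : (S \ S').Nonempty ∨ (S' \ S).Nonempty := by
      by_contra hcon
      push Not at hcon
      rw [sdiff_eq_empty_iff_subset, sdiff_eq_empty_iff_subset] at hcon
      exact hne (Subset.antisymm hcon.1 hcon.2)
    rcases hor with h1 | h1
    · refine ⟨h1, ?_⟩
      by_contra h2
      rw [not_nonempty_iff_eq_empty] at h2
      rw [h2, sum_empty] at e3
      have := sum_pos (fun n _ => hpos n) h1
      omega
    · refine ⟨?_, h1⟩
      by_contra h2
      rw [not_nonempty_iff_eq_empty] at h2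
      rw [h2, sum_empty] at e3
      have := sum_pos (fun n _ => hpos n) h1
      omega
  obtain ⟨h1, h2⟩ := key
  set m := (S \ S').max' h1 with hm
  set m' := (S' \ S).max' h2 with hm'
  have hmm : m ∈ S \ S' := max'_mem _ _
  have hmm' : m' ∈ S' \ S := max'_mem _ _
  rcases lt_trichotomy m m' with hlt | heq | hgt
  · have := sum_inj_aux a N₀ hmono (S \ S') (S' \ S)
      (fun n hn => hS n (mem_sdiff.1 hn).1) (hA.mono sdiff_subset) m m' hmm
      (fun x hx => le_max' _ x hx) hmm' hlt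
    omega
  · rw [heq] at hmm
    exact (mem_sdiff.1 hmm).2 (mem_sdiff.1 hmm').1
  · have := sum_inj_aux a N₀ hmono (S' \ S) (S \ S')
      (fun n hn => hS' n (mem_sdiff.1 hn).1) (hA'.mono sdiff_subset) m' m hmm'
      (fun x hx => le_max' _ x hx) hmm hgt
    omega

/-- The family of allowed sets with prescribed cardinalities in the blocks. -/
noncomputable def Fam (a : ℕ → ℕ) (K : Finset ℕ) (B : ℕ → Finset ℕ) (v : ℕ → ℕ) :
    Finset (Finset ℕ) :=
  open scoped Classical in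
  (K.biUnion B).powerset.filter (fun S => Allowed a S ∧ ∀ k ∈ K, (S ∩ B k).card = v k)

theorem mem_Fam {a : ℕ → ℕ} {K : Finset ℕ} {B : ℕ → Finset ℕ} {v : ℕ → ℕ} {S : Finset ℕ} :
    S ∈ Fam a K B v ↔ S ⊆ K.biUnion B ∧ Allowed a S ∧ ∀ k ∈ K, (S ∩ B k).card = v k := by
  classical
  unfold Fam
  rw [mem_filter, mem_powerset]

section fam

variable (a : ℕ → ℕ) (K : Finset ℕ) (B : ℕ → Finset ℕ) (W : ℕ → ℕ)

theorem count_le (hB : ∀ j ∈ K, ∀ k ∈ K, j ≠ k → Disjoint (B j) (B k)) (v : ℕ → ℕ) (k : ℕ)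
    (hk : k ∈ K) (s : ℕ) (hv : v k = s + 1) :
    (s + 1) * (Fam a K B v).card ≤ (Fam a K B (Function.update v k s)).card * (B k).card := by
  classical
  set P : Finset (Finset ℕ × ℕ) := (Fam a K B v ×ˢ B k).filter (fun p => p.2 ∈ p.1) with hP
  have hPc : P.card = (s + 1) * (Fam a K B v).card := by
    rw [hP, card_filter, sum_product]
    have : ∀ S ∈ Fam a K B v, ∑ n ∈ B k, (if n ∈ S then 1 else 0) = s + 1 := by
      intro S hS
      rw [← hv, ← (mem_Fam.1 hS).2.2 k hk, ← card_filter]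
      congr 1
      ext n
      simp [and_comm]
    rw [sum_congr rfl this, sum_const, smul_eq_mul, mul_comm]
  rw [← hPc, ← card_product]
  refine card_le_card_of_injOn (fun p => (p.1.erase p.2, p.2)) ?_ ?_
  · intro p hp
    rw [hP, mem_coe, mem_filter, mem_product] at hp
    obtain ⟨⟨h1, h2⟩, h3⟩ := hp
    rw [mem_Fam] at h1
    simp only [mem_coe, mem_product]
    refine ⟨mem_Fam.2 ⟨(erase_subset _ _).trans h1.1, h1.2.1.mono (erase_subset _ _), ?_⟩, h2⟩
    intro j hj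
    by_cases hjk : j = k
    · subst hjk
      rw [Function.update_self, erase_inter, card_erase_of_mem (mem_inter.2 ⟨h3, h2⟩),
        h1.2.2 j hj, hv]
      rfl
    · rw [Function.update_of_ne hjk, ← h1.2.2 j hj]
      congr 1
      rw [erase_inter, erase_eq_of_notMem]
      intro hx
      exact (Finset.disjoint_left.1 (hB j hj k hk hjk)) (mem_inter.1 hx).2 h2
  · intro p hp q hq hpq
    rw [hP, mem_coe, mem_filter, mem_product] at hp hq
    simp only [Prod.mk.injEq] at hpq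
    obtain ⟨h1, h2⟩ := hpq
    refine Prod.ext ?_ h2
    rw [← insert_erase hp.2, ← insert_erase hq.2, h1, h2]

theorem insert_mem (hB : ∀ j ∈ K, ∀ k ∈ K, j ≠ k → Disjoint (B j) (B k))
    (hW : ∀ k ∈ K, ∀ n ∈ B k, ∀ m ∈ B k, n + W k < m → a m + a (n + 1) ≤ a (m + 1))
    (hX : ∀ j ∈ K, ∀ k ∈ K, j ≠ k → ∀ n ∈ B j, ∀ m ∈ B k, n < m → a m + a (n + 1) ≤ a (m + 1))
    (v : ℕ → ℕ) (k : ℕ) (hk : k ∈ K) (S : Finset ℕ) (hS : S ∈ Fam a K B v) (n : ℕ) (hn : n ∈ B k)
    (hn2 : ∀ m ∈ S ∩ B k, n < m - W k ∨ m + W k < n) :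
    n ∉ S ∧ insert n S ∈ Fam a K B (Function.update v k (v k + 1)) := by
  classical
  rw [mem_Fam] at hS
  obtain ⟨h1, h2, h3⟩ := hS
  have hnS : n ∉ S := by
    intro h
    rcases hn2 n (mem_inter.2 ⟨h, hn⟩) with h | h <;> omega
  refine ⟨hnS, ?_⟩
  rw [mem_Fam]
  refine ⟨insert_subset (mem_biUnion.2 ⟨k, hk, hn⟩) h1, ?_, ?_⟩
  · intro p hp q hq hpq
    rcases mem_insert.1 hp with hpn | hp'
    · rcases mem_insert.1 hq with hqn | hq'
      · omega
      · rw [hpn] at hpq ⊢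
        obtain ⟨j, hj, hqj⟩ := mem_biUnion.1 (h1 hq')
        by_cases hjk : j = k
        · subst hjk
          refine hW j hk n hn q hqj ?_
          rcases hn2 q (mem_inter.2 ⟨hq', hqj⟩) with h | h <;> omega
        · exact hX k hk j hj (Ne.symm hjk) n hn q hqj hpq
    · rcases mem_insert.1 hq with hqn | hq'
      · rw [hqn] at hpq ⊢
        obtain ⟨j, hj, hpj⟩ := mem_biUnion.1 (h1 hp')
        by_cases hjk : j = k
        · subst hjk
          refine hW j hk p hpj n hn ?_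
          rcases hn2 p (mem_inter.2 ⟨hp', hpj⟩) with h | h <;> omega
        · exact hX j hj k hk hjk p hpj n hn hpq
      · exact h2 p hp' q hq' hpq
  · intro j hj
    by_cases hjk : j = k
    · subst hjk
      rw [Function.update_self, insert_inter_of_mem hn, card_insert_of_notMem, h3 j hj]
      intro h
      exact hnS (mem_inter.1 h).1
    · rw [Function.update_of_ne hjk, insert_inter_of_notMem, h3 j hj]
      intro h
      exact (Finset.disjoint_left.1 (hB j hj k hk hjk)) h hn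

theorem avail (hB : ∀ j ∈ K, ∀ k ∈ K, j ≠ k → Disjoint (B j) (B k))
    (hW : ∀ k ∈ K, ∀ n ∈ B k, ∀ m ∈ B k, n + W k < m → a m + a (n + 1) ≤ a (m + 1))
    (hX : ∀ j ∈ K, ∀ k ∈ K, j ≠ k → ∀ n ∈ B j, ∀ m ∈ B k, n < m → a m + a (n + 1) ≤ a (m + 1))
    (v : ℕ → ℕ) (k : ℕ) (hk : k ∈ K) (S : Finset ℕ) (hS : S ∈ Fam a K B v) :
    ∃ A ⊆ B k, (B k).card ≤ A.card + v k * (2 * W k + 1) ∧
      ∀ n ∈ A, n ∉ S ∧ insert n S ∈ Fam a K B (Function.update v k (v k + 1)) := by
  classical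
  refine ⟨B k \ (S ∩ B k).biUnion (fun m => Icc (m - W k) (m + W k)), sdiff_subset, ?_, ?_⟩
  · have h1 : ((S ∩ B k).biUnion (fun m => Icc (m - W k) (m + W k))).card ≤
        v k * (2 * W k + 1) := by
      rw [← (mem_Fam.1 hS).2.2 k hk]
      refine card_biUnion_le_card_mul _ _ _ ?_
      intro m _
      rw [Nat.card_Icc]
      omega
    have h2 := le_card_sdiff ((S ∩ B k).biUnion (fun m => Icc (m - W k) (m + W k))) (B k)
    omega
  · intro n hn
    rw [mem_sdiff, mem_biUnion] at hn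
    refine insert_mem a K B W hB hW hX v k hk S hS n hn.1 ?_
    intro m hm
    by_contra hcon
    push Not at hcon
    exact hn.2 ⟨m, hm, mem_Icc.2 hcon⟩

theorem Fam_nonempty (hB : ∀ j ∈ K, ∀ k ∈ K, j ≠ k → Disjoint (B j) (B k))
    (hW : ∀ k ∈ K, ∀ n ∈ B k, ∀ m ∈ B k, n + W k < m → a m + a (n + 1) ≤ a (m + 1))
    (hX : ∀ j ∈ K, ∀ k ∈ K, j ≠ k → ∀ n ∈ B j, ∀ m ∈ B k, n < m → a m + a (n + 1) ≤ a (m + 1))
    (s : ℕ) : ∀ (v : ℕ → ℕ), (∀ k ∈ K, v k ≠ 0 → (v k - 1) * (2 * W k + 1) < (B k).card) →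
      ∑ k ∈ K, v k = s → (Fam a K B v).Nonempty := by
  classical
  induction s with
  | zero =>
    intro v _ hv
    refine ⟨∅, mem_Fam.2 ⟨empty_subset _, ?_, ?_⟩⟩
    · intro n hn; simp at hn
    · intro k hk
      have := (sum_eq_zero_iff.1 hv) k hk
      simp [this]
  | succ s ih =>
    intro v hlt hv
    obtain ⟨k, hk, hvk⟩ : ∃ k ∈ K, v k ≠ 0 := by
      by_contra hcon
      push Not at hcon
      rw [sum_eq_zero hcon] at hv
      omega
    set v' := Function.update v k (v k - 1) with hv'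
    have hs' : ∑ k ∈ K, v' k = s := by
      have h1 : ∑ j ∈ K.erase k, v' j = ∑ j ∈ K.erase k, v j := by
        refine sum_congr rfl fun j hj => ?_
        rw [hv', Function.update_of_ne (ne_of_mem_erase hj)]
      have h2 := add_sum_erase K v hk
      have h3 := add_sum_erase K v' hk
      have h4 : v' k = v k - 1 := by rw [hv', Function.update_self]
      omega
    obtain ⟨S, hS⟩ := ih v' (by
      intro j hj hj0
      by_cases hjk : j = k
      · subst hjk
        have h4 : v' j = v j - 1 := by rw [hv', Function.update_self]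
        rw [h4]
        refine lt_of_le_of_lt (Nat.mul_le_mul_right _ ?_) (hlt j hj hvk)
        omega
      · have h4 : v' j = v j := by rw [hv', Function.update_of_ne hjk]
        rw [h4] at hj0 ⊢
        exact hlt j hj hj0) hs'
    obtain ⟨A, hA, hcard, hAm⟩ := avail a K B W hB hW hX v' k hk S hS
    have h4 : v' k = v k - 1 := by rw [hv', Function.update_self]
    have h5 := hlt k hk hvk
    have hA0 : A.Nonempty := by
      rw [← card_pos]
      rw [h4] at hcard
      omega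
    obtain ⟨n, hn⟩ := hA0
    have h6 := (hAm n hn).2
    have h7 : Function.update v' k (v' k + 1) = v := by
      rw [h4, hv', Function.update_idem, Nat.sub_add_cancel (Nat.one_le_iff_ne_zero.2 hvk),
        Function.update_eq_self]
    rw [h7] at h6
    exact ⟨_, h6⟩

end fam

end Pool.Agent.Y249.BG
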