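import Pool.Agent.Y249.BG.Comb

set_option autoImplicit false
open Finset

namespace Pool.Agent.Y249.BG

/-- Width of the conflict window in block `k`. -/
def Wd (k : ℕ) : ℕ := (k + 2) * (Nat.log 2 (k + 2) + 1)

theorem pow_W (k : ℕ) : ((k : ℝ) + 2) ≤ (1 + 1 / ((k : ℝ) + 2)) ^ Wd k := by
  have h0 : 0 ≤ 1 / ((k : ℝ) + 2) := by positivity
  have h1 : (2 : ℝ) ≤ (1 + 1 / ((k : ℝ) + 2)) ^ (k + 2) := by
    have h := one_add_mul_le_pow (a := 1 / ((k : ℝ) + 2)) (by linarith) (k + 2)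
    push_cast at h
    have h2 : ((k : ℝ) + 2) * (1 / ((k : ℝ) + 2)) = 1 := by field_simp
    linarith
  have h3 : k + 2 < 2 ^ (Nat.log 2 (k + 2) + 1) := Nat.lt_pow_succ_log_self (by norm_num) _
  unfold Wd
  rw [pow_mul]
  calc ((k : ℝ) + 2) ≤ (2 : ℝ) ^ (Nat.log 2 (k + 2) + 1) := by exact_mod_cast h3.le
    _ ≤ _ := pow_le_pow_left₀ (by norm_num) h1 _

theorem Wd_le (k : ℕ) (hk : 6 ≤ k) : Wd k ≤ 2 ^ k := by
  have h1 : Nat.log 2 (k + 2) + 1 ≤ k + 2 := by
    have := Nat.log_lt_self 2 (x := k + 2) (by omega)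
    omega
  have h2 : (k + 2) * (k + 2) ≤ 2 ^ k := by
    induction k, hk using Nat.le_induction with
    | base => norm_num
    | succ n hn ih =>
      have ih' := ih (by
        have := Nat.log_lt_self 2 (x := n + 2) (by omega)
        omega)
      rw [pow_succ]
      nlinarith
  exact (Nat.mul_le_mul_left _ h1).trans h2

theorem not_summable_W : ¬ Summable (fun k : ℕ => (1 : ℝ) / (2 * (2 * (Wd k : ℝ) + 1))) := by
  rw [← summable_condensed_iff_of_nonneg]
  · intro hs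
    have h1 : Summable (fun i : ℕ => (1 / 32 : ℝ) * (1 / ((i + 3 : ℕ) : ℝ))) := by
      refine Summable.of_nonneg_of_le (fun i => by positivity) (fun i => ?_) hs
      have hW : Wd (2 ^ i) ≤ 2 ^ (i + 2) * (i + 3) := by
        unfold Wd
        have e1 : 2 ^ i + 2 ≤ 2 ^ (i + 2) := by
          have := Nat.one_le_two_pow (n := i)
          rw [pow_add]
          omega
        have e2 : Nat.log 2 (2 ^ i + 2) ≤ i + 2 := by
          calc Nat.log 2 (2 ^ i + 2) ≤ Nat.log 2 (2 ^ (i + 2)) := Nat.log_mono_right e1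
            _ = i + 2 := Nat.log_pow (by norm_num) _
        exact Nat.mul_le_mul e1 (by omega)
      have hW' : (Wd (2 ^ i) : ℝ) ≤ 2 ^ (i + 2) * ((i : ℝ) + 3) := by exact_mod_cast hW
      have hpos : (0 : ℝ) < 2 ^ i := by positivity
      have h1le : (1 : ℝ) ≤ 2 ^ i := one_le_pow₀ (by norm_num)
      have hW2 : 2 * (2 * (Wd (2 ^ i) : ℝ) + 1) ≤ 2 ^ i * (32 * ((i : ℝ) + 3)) := by
        rw [pow_add] at hW'
        have hi : (0 : ℝ) ≤ i := Nat.cast_nonneg i
        nlinarith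
      push_cast
      have e3 : (1 / 32 : ℝ) * (1 / ((i : ℝ) + 3)) = 1 / (32 * ((i : ℝ) + 3)) := by
        rw [one_div_mul_one_div]
      rw [e3, mul_one_div, div_le_div_iff₀ (by positivity) (by positivity)]
      linarith
    rw [summable_mul_left_iff (by norm_num)] at h1
    have h2 := (summable_nat_add_iff (f := fun n : ℕ => 1 / (n : ℝ)) 3).1 h1
    exact Real.not_summable_one_div_natCast h2
  · intro n; positivity
  · intro m n _ hmn
    have : Wd m ≤ Wd n := by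
      unfold Wd
      exact Nat.mul_le_mul (by omega) (Nat.add_le_add_right (Nat.log_mono_right (by omega)) 1)
    have : (Wd m : ℝ) ≤ Wd n := by exact_mod_cast this
    apply one_div_le_one_div_of_le (by positivity)
    linarith

theorem exists_K (C : ℝ) (k₀ : ℕ) : ∃ K : Finset ℕ, (∀ k ∈ K, k₀ ≤ k) ∧
    C ≤ ∑ k ∈ K, (1 : ℝ) / (2 * (2 * (Wd k : ℝ) + 1)) := by
  have h := (not_summable_iff_tendsto_nat_atTop_of_nonneg (fun n => by positivity)).1
    not_summable_W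
  obtain ⟨n, hn, hnk⟩ := ((h.eventually_ge_atTop
    (C + ∑ i ∈ range k₀, (1 : ℝ) / (2 * (2 * (Wd i : ℝ) + 1)))).and
      (Filter.eventually_ge_atTop k₀)).exists
  refine ⟨Ico k₀ n, fun k hk => (mem_Ico.1 hk).1, ?_⟩
  rw [sum_Ico_eq_sub _ hnk]
  linarith

section growth

variable (a : ℕ → ℕ) (N₀ : ℕ)

theorem ratio_block (hN : 2 ≤ N₀) (hpos : ∀ n, 0 < a n)
    (hg : ∀ n ≥ N₀, ((a (n + 1) : ℝ) / (a n : ℝ)) ≥ 1 + 1 / Real.log (n : ℝ))
    (k i : ℕ) (hi : N₀ ≤ i) (hik : i < 4 * 2 ^ k) :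
    (1 + 1 / ((k : ℝ) + 2)) * a i ≤ a (i + 1) := by
  have h1 := hg i hi
  have ha : (0 : ℝ) < a i := by exact_mod_cast hpos i
  rw [ge_iff_le, le_div_iff₀ ha] at h1
  refine le_trans ?_ h1
  apply mul_le_mul_of_nonneg_right _ ha.le
  have hlog : 0 < Real.log (i : ℝ) := Real.log_pos (by
    have : 2 ≤ i := hN.trans hi
    exact_mod_cast this)
  have hlog2 : Real.log (i : ℝ) ≤ (k : ℝ) + 2 := by
    have hle : (i : ℝ) ≤ 2 ^ (k + 2) := by
      have : i ≤ 2 ^ (k + 2) := by rw [pow_add]; omega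
      exact_mod_cast this
    calc Real.log (i : ℝ) ≤ Real.log (2 ^ (k + 2)) :=
          Real.log_le_log (by have : 0 < i := by omega
                              exact_mod_cast this) hle
      _ = ((k : ℝ) + 2) * Real.log 2 := by rw [Real.log_pow]; push_cast; ring
      _ ≤ ((k : ℝ) + 2) * 1 := by
          apply mul_le_mul_of_nonneg_left _ (by positivity)
          have := Real.log_two_lt_d9
          linarith
      _ = _ := mul_one _
  have := one_div_le_one_div_of_le hlog hlog2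
  linarith

theorem mono_of (hN : 2 ≤ N₀) (hpos : ∀ n, 0 < a n)
    (hg : ∀ n ≥ N₀, ((a (n + 1) : ℝ) / (a n : ℝ)) ≥ 1 + 1 / Real.log (n : ℝ)) (n : ℕ)
    (hn : N₀ ≤ n) : a n < a (n + 1) := by
  have h := ratio_block a N₀ hN hpos hg n n hn (by have := Nat.lt_two_pow_self (n := n); omega)
  have ha : (0 : ℝ) < a n := by exact_mod_cast hpos n
  have h2 : (a n : ℝ) < a (n + 1) := by
    have : 0 < 1 / ((n : ℝ) + 2) := by positivity
    nlinarith
  exact_mod_cast h2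

theorem pow_growth (hN : 2 ≤ N₀) (hpos : ∀ n, 0 < a n)
    (hg : ∀ n ≥ N₀, ((a (n + 1) : ℝ) / (a n : ℝ)) ≥ 1 + 1 / Real.log (n : ℝ))
    (k n : ℕ) (hn : N₀ ≤ n) (t : ℕ) : n + t ≤ 4 * 2 ^ k →
    (1 + 1 / ((k : ℝ) + 2)) ^ t * a n ≤ a (n + t) := by
  induction t with
  | zero => intro _; simp
  | succ t ih =>
    intro ht
    have h1 := ih (by omega)
    have h2 := ratio_block a N₀ hN hpos hg k (n + t) (by omega) (by omega)
    have h0 : 0 ≤ 1 + 1 / ((k : ℝ) + 2) := by positivity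
    calc (1 + 1 / ((k : ℝ) + 2)) ^ (t + 1) * a n
        = (1 + 1 / ((k : ℝ) + 2)) * ((1 + 1 / ((k : ℝ) + 2)) ^ t * a n) := by ring
      _ ≤ (1 + 1 / ((k : ℝ) + 2)) * a (n + t) := mul_le_mul_of_nonneg_left h1 h0
      _ ≤ a (n + t + 1) := h2

theorem gap (hN : 2 ≤ N₀) (hpos : ∀ n, 0 < a n)
    (hg : ∀ n ≥ N₀, ((a (n + 1) : ℝ) / (a n : ℝ)) ≥ 1 + 1 / Real.log (n : ℝ))
    (k n m : ℕ) (hn : N₀ ≤ n) (hnm : n + Wd k < m) (hm : m < 4 * 2 ^ k) :
    a m + a (n + 1) ≤ a (m + 1) := by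
  obtain ⟨t, rfl⟩ : ∃ t, m = n + 1 + t := ⟨m - (n + 1), by omega⟩
  have h1 := pow_growth a N₀ hN hpos hg k (n + 1) (by omega) t (by omega)
  have h2 := ratio_block a N₀ hN hpos hg k (n + 1 + t) (by omega) hm
  have h3 : ((k : ℝ) + 2) ≤ (1 + 1 / ((k : ℝ) + 2)) ^ t :=
    (pow_W k).trans (pow_le_pow_right₀ (by
      have : 0 ≤ 1 / ((k : ℝ) + 2) := by positivity
      linarith) (by omega))
  have h4 : ((k : ℝ) + 2) * a (n + 1) ≤ a (n + 1 + t) :=
    (mul_le_mul_of_nonneg_right h3 (Nat.cast_nonneg _)).trans h1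
  have h5 : (a (n + 1) : ℝ) ≤ 1 / ((k : ℝ) + 2) * a (n + 1 + t) := by
    rw [one_div, inv_mul_eq_div, le_div_iff₀ (by positivity)]
    linarith
  have h6 : (a (n + 1 + t) : ℝ) + a (n + 1) ≤ a (n + 1 + t + 1) := by
    linarith
  exact_mod_cast h6

end growth

/-- The combinatorial input: `F` is much larger than `E`, although every point of `F` enters `E`
for a positive proportion of times along the sequence. -/
theorem comb (a : ℕ → ℕ) (hpos : ∀ n, 0 < a n)
    (hg : ∃ N : ℕ, ∀ n ≥ N, ((a (n + 1) : ℝ) / (a n : ℝ)) ≥ 1 + 1 / Real.log (n : ℝ))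
    (C : ℕ) : ∃ E F : Finset ℕ, F.Nonempty ∧ C * E.card ≤ F.card ∧
      ∀ x ∈ F, ∃ N : ℕ, 0 < N ∧ N ≤ 8 * ((range N).filter (fun n => x + a n ∈ E)).card := by
  classical
  obtain ⟨N₁, hN₁⟩ := hg
  set N₀ := max N₁ 2 with hN₀
  have hN : 2 ≤ N₀ := le_max_right _ _
  have hg : ∀ n ≥ N₀, ((a (n + 1) : ℝ) / (a n : ℝ)) ≥ 1 + 1 / Real.log (n : ℝ) :=
    fun n hn => hN₁ n ((le_max_left _ _).trans hn)
  obtain ⟨K, hK, hKC⟩ := exists_K ((C : ℝ) + 1) (max 6 N₀)
  set B : ℕ → Finset ℕ := fun k => Ico (3 * 2 ^ k) (4 * 2 ^ k) with hBdef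
  have hBN : ∀ k ∈ K, ∀ n ∈ B k, N₀ ≤ n := by
    intro k hk n hn
    have h1 := (mem_Ico.1 hn).1
    have h2 : N₀ ≤ k := (le_max_right _ _).trans (hK k hk)
    have h3 := Nat.lt_two_pow_self (n := k)
    omega
  have hord : ∀ j k : ℕ, ∀ n ∈ B j, ∀ m ∈ B k, n < m → j ≠ k → j < k := by
    intro j k n hn m hm hnm hjk
    by_contra hcon
    have hkj : k + 1 ≤ j := by omega
    have h1 := (mem_Ico.1 hn).1
    have h2 := (mem_Ico.1 hm).2
    have h3 : 2 ^ (k + 1) ≤ 2 ^ j := Nat.pow_le_pow_right (by norm_num) hkj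
    rw [pow_succ] at h3
    omega
  have hB : ∀ j ∈ K, ∀ k ∈ K, j ≠ k → Disjoint (B j) (B k) := by
    intro j _ k _ hjk
    rw [Finset.disjoint_left]
    intro n hn hn'
    have key : ∀ j k : ℕ, j < k → n ∈ B j → n ∈ B k → False := by
      intro j k hlt h1 h2
      have h1 := (mem_Ico.1 h1).2
      have h2 := (mem_Ico.1 h2).1
      have h3 : 2 ^ (j + 1) ≤ 2 ^ k := Nat.pow_le_pow_right (by norm_num) hlt
      rw [pow_succ] at h3
      omega
    rcases lt_or_gt_of_ne hjk with h | h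
    · exact key j k h hn hn'
    · exact key k j h hn' hn
  have hW : ∀ k ∈ K, ∀ n ∈ B k, ∀ m ∈ B k, n + Wd k < m → a m + a (n + 1) ≤ a (m + 1) := by
    intro k hk n hn m hm hnm
    exact gap a N₀ hN hpos hg k n m (hBN k hk n hn) hnm (mem_Ico.1 hm).2
  have hX : ∀ j ∈ K, ∀ k ∈ K, j ≠ k → ∀ n ∈ B j, ∀ m ∈ B k, n < m →
      a m + a (n + 1) ≤ a (m + 1) := by
    intro j hj k hk hjk n hn m hm hnm
    have hlt := hord j k n hn m hm hnm hjk
    refine gap a N₀ hN hpos hg k n m (hBN j hj n hn) ?_ (mem_Ico.1 hm).2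
    have h1 := (mem_Ico.1 hn).2
    have h2 := (mem_Ico.1 hm).1
    have h3 : 2 ^ (j + 1) ≤ 2 ^ k := Nat.pow_le_pow_right (by norm_num) hlt
    have h4 := Wd_le k ((le_max_left _ _).trans (hK k hk))
    rw [pow_succ] at h3
    omega
  have hBc : ∀ k, (B k).card = 2 ^ k := by
    intro k
    rw [hBdef]
    simp only [Nat.card_Ico]
    omega
  set r : ℕ → ℕ := fun k => 2 ^ k / (2 * (2 * Wd k + 1)) with hr
  set v₀ : ℕ → ℕ := fun k => r k + 1 with hv₀
  have hr1 : ∀ k, r k * (2 * (2 * Wd k + 1)) ≤ 2 ^ k := fun k => Nat.div_mul_le_self _ _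
  have hr2 : ∀ k, 2 ^ k ≤ (r k + 1) * (2 * (2 * Wd k + 1)) := fun k => by
    have h := Nat.lt_mul_div_succ (2 ^ k) (show 0 < 2 * (2 * Wd k + 1) by omega)
    rw [mul_comm]
    exact h.le
  set T₀ := Fam a K B v₀ with hT₀
  set T : ℕ → Finset (Finset ℕ) := fun k => Fam a K B (Function.update v₀ k (r k)) with hT
  have hne : T₀.Nonempty := by
    refine Fam_nonempty a K B Wd hB hW hX _ v₀ ?_ rfl
    intro k _ _
    rw [hBc, hv₀]
    simp only [Nat.add_sub_cancel]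
    have := hr1 k
    have h2 : 0 < 2 ^ k := by positivity
    nlinarith
  have hcount : ∀ k ∈ K, T₀.card ≤ (T k).card * (2 * (2 * Wd k + 1)) := by
    intro k hk
    have h1 := count_le a K B hB v₀ k hk (r k) rfl
    rw [hBc] at h1
    have h2 : (r k + 1) * T₀.card ≤ (r k + 1) * ((T k).card * (2 * (2 * Wd k + 1))) := by
      refine h1.trans ?_
      calc (T k).card * 2 ^ k ≤ (T k).card * ((r k + 1) * (2 * (2 * Wd k + 1))) :=
            Nat.mul_le_mul_left _ (hr2 k)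
        _ = _ := by ring
    exact Nat.le_of_mul_le_mul_left h2 (Nat.succ_pos _)
  have hdisj : ∀ j ∈ K, ∀ k ∈ K, j ≠ k → Disjoint (T j) (T k) := by
    intro j hj k hk hjk
    rw [Finset.disjoint_left]
    intro S h1 h2
    have e1 := (mem_Fam.1 h1).2.2 j hj
    have e2 := (mem_Fam.1 h2).2.2 j hj
    rw [Function.update_self] at e1
    rw [Function.update_of_ne hjk, e1] at e2
    simp [hv₀] at e2
  set σ : Finset ℕ → ℕ := fun S => ∑ n ∈ S, a n with hσ
  have hmono := mono_of a N₀ hN hpos hg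
  have hsub : ∀ v, ∀ S ∈ Fam a K B v, ∀ n ∈ S, N₀ ≤ n := by
    intro v S hS n hn
    obtain ⟨k, hk, hnk⟩ := mem_biUnion.1 ((mem_Fam.1 hS).1 hn)
    exact hBN k hk n hnk
  have hinj : Set.InjOn σ (K.biUnion T : Finset (Finset ℕ)) := by
    intro S hS S' hS' h
    obtain ⟨k, _, hSk⟩ := mem_biUnion.1 (mem_coe.1 hS)
    obtain ⟨k', _, hSk'⟩ := mem_biUnion.1 (mem_coe.1 hS')
    exact sum_inj a hpos N₀ hmono S S' (hsub _ S hSk) (hsub _ S' hSk') (mem_Fam.1 hSk).2.1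
      (mem_Fam.1 hSk').2.1 h
  refine ⟨T₀.image σ, (K.biUnion T).image σ, ?_, ?_, ?_⟩
  · obtain ⟨k, hk⟩ : K.Nonempty := by
      by_contra h
      rw [not_nonempty_iff_eq_empty] at h
      rw [h, sum_empty] at hKC
      have : (0 : ℝ) ≤ C := Nat.cast_nonneg C
      linarith
    have h1 := hcount k hk
    have h2 : (T k).Nonempty := by
      rw [← card_pos]
      by_contra h
      have h0 : (T k).card = 0 := by omega
      rw [h0, zero_mul] at h1
      have := hne.card_pos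
      omega
    obtain ⟨S, hS⟩ := h2
    exact ⟨σ S, mem_image_of_mem _ (mem_biUnion.2 ⟨k, hk, hS⟩)⟩
  · rw [card_image_of_injOn hinj, card_biUnion hdisj]
    have h1 : (C : ℝ) * (T₀.card : ℝ) ≤ ((∑ k ∈ K, (T k).card : ℕ) : ℝ) := by
      push_cast
      have h2 : ∀ k ∈ K, (T₀.card : ℝ) * (1 / (2 * (2 * (Wd k : ℝ) + 1))) ≤ (T k).card := by
        intro k hk
        rw [mul_one_div, div_le_iff₀ (by positivity)]
        exact_mod_cast hcount k hk
      calc (C : ℝ) * (T₀.card : ℝ) ≤ (T₀.card : ℝ) * ((C : ℝ) + 1) := by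
            have : (0 : ℝ) ≤ T₀.card := Nat.cast_nonneg _
            nlinarith
        _ ≤ (T₀.card : ℝ) * ∑ k ∈ K, (1 : ℝ) / (2 * (2 * (Wd k : ℝ) + 1)) :=
            mul_le_mul_of_nonneg_left hKC (Nat.cast_nonneg _)
        _ = ∑ k ∈ K, (T₀.card : ℝ) * (1 / (2 * (2 * (Wd k : ℝ) + 1))) := mul_sum _ _ _
        _ ≤ _ := sum_le_sum h2
    have h3 : C * T₀.card ≤ ∑ k ∈ K, (T k).card := by exact_mod_cast h1
    exact (Nat.mul_le_mul_left _ card_image_le).trans h3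
  · intro x hx
    obtain ⟨S, hS, rfl⟩ := mem_image.1 hx
    obtain ⟨k, hk, hSk⟩ := mem_biUnion.1 hS
    obtain ⟨A, hA, hcard, hAm⟩ := avail a K B Wd hB hW hX _ k hk S hSk
    rw [Function.update_self, Function.update_idem] at hAm
    rw [Function.update_self, hBc] at hcard
    have hv : Function.update v₀ k (r k + 1) = v₀ := Function.update_eq_self _ _
    rw [hv] at hAm
    refine ⟨4 * 2 ^ k, by positivity, ?_⟩
    have h1 : A ⊆ (range (4 * 2 ^ k)).filter (fun n => σ S + a n ∈ T₀.image σ) := by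
      intro n hn
      rw [mem_filter, mem_range]
      refine ⟨(mem_Ico.1 (hA hn)).2, mem_image.2 ⟨insert n S, (hAm n hn).2, ?_⟩⟩
      rw [hσ]
      simp only
      rw [sum_insert (hAm n hn).1, add_comm]
    have h2 := card_le_card h1
    have h3 := hr1 k
    nlinarith

end Pool.Agent.Y249.BG
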