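import Pool.Agent.Y249.BG.Comb

set_option autoImplicit false
open Finset

namespace Pool.Agent.Y249.BG

/-- Width of the conflict window for the ratio `1 + 1/t`. -/
def Wt (t : ℕ) : ℕ := t * (Nat.log 2 t + 1)

theorem Wt_mono {s t : ℕ} (h : s ≤ t) : Wt s ≤ Wt t :=
  Nat.mul_le_mul h (Nat.add_le_add_right (Nat.log_mono_right h) 1)

theorem Wt_le_sq (t : ℕ) : Wt t ≤ t * t := by
  unfold Wt
  rcases Nat.eq_zero_or_pos t with rfl | ht
  · simp
  · have := Nat.log_lt_self 2 (x := t) ht.ne'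
    exact Nat.mul_le_mul_left _ (by omega)

theorem pow_Wt (t : ℕ) (ht : 0 < t) : (t : ℝ) ≤ (1 + 1 / (t : ℝ)) ^ Wt t := by
  have ht' : (0 : ℝ) < t := by exact_mod_cast ht
  have h0 : 0 ≤ 1 / (t : ℝ) := by positivity
  have h1 : (2 : ℝ) ≤ (1 + 1 / (t : ℝ)) ^ t := by
    have h := one_add_mul_le_pow (a := 1 / (t : ℝ)) (by linarith) t
    have h2 : (t : ℝ) * (1 / (t : ℝ)) = 1 := by field_simp
    linarith
  have h3 : t < 2 ^ (Nat.log 2 t + 1) := Nat.lt_pow_succ_log_self (by norm_num) _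
  unfold Wt
  rw [pow_mul]
  calc (t : ℝ) ≤ (2 : ℝ) ^ (Nat.log 2 t + 1) := by exact_mod_cast h3.le
    _ ≤ _ := pow_le_pow_left₀ (by norm_num) h1 _

theorem pow_growth2 (a : ℕ → ℕ) (N₀ U t : ℕ)
    (hr : ∀ i, N₀ ≤ i → i < U → (1 + 1 / (t : ℝ)) * a i ≤ a (i + 1)) (n : ℕ) (hn : N₀ ≤ n)
    (s : ℕ) : n + s ≤ U → (1 + 1 / (t : ℝ)) ^ s * a n ≤ a (n + s) := by
  induction s with
  | zero => intro _; simp
  | succ s ih =>
    intro hs
    have h1 := ih (by omega)
    have h2 := hr (n + s) (by omega) (by omega)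
    have h0 : 0 ≤ 1 + 1 / (t : ℝ) := by positivity
    calc (1 + 1 / (t : ℝ)) ^ (s + 1) * a n
        = (1 + 1 / (t : ℝ)) * ((1 + 1 / (t : ℝ)) ^ s * a n) := by ring
      _ ≤ (1 + 1 / (t : ℝ)) * a (n + s) := mul_le_mul_of_nonneg_left h1 h0
      _ ≤ a (n + s + 1) := h2

theorem gap2 (a : ℕ → ℕ) (N₀ U t : ℕ) (ht : 0 < t)
    (hr : ∀ i, N₀ ≤ i → i < U → (1 + 1 / (t : ℝ)) * a i ≤ a (i + 1))
    (n m : ℕ) (hn : N₀ ≤ n) (hnm : n + Wt t < m) (hm : m < U) :
    a m + a (n + 1) ≤ a (m + 1) := by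
  obtain ⟨s, rfl⟩ : ∃ s, m = n + 1 + s := ⟨m - (n + 1), by omega⟩
  have ht' : (0 : ℝ) < t := by exact_mod_cast ht
  have h1 := pow_growth2 a N₀ U t hr (n + 1) (by omega) s (by omega)
  have h2 := hr (n + 1 + s) (by omega) hm
  have h3 : (t : ℝ) ≤ (1 + 1 / (t : ℝ)) ^ s :=
    (pow_Wt t ht).trans (pow_le_pow_right₀ (by
      have : 0 ≤ 1 / (t : ℝ) := by positivity
      linarith) (by omega))
  have h4 : (t : ℝ) * a (n + 1) ≤ a (n + 1 + s) :=
    (mul_le_mul_of_nonneg_right h3 (Nat.cast_nonneg _)).trans h1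
  have h5 : (a (n + 1) : ℝ) ≤ 1 / (t : ℝ) * a (n + 1 + s) := by
    rw [one_div, inv_mul_eq_div, le_div_iff₀ (by positivity)]
    linarith
  have h6 : (a (n + 1 + s) : ℝ) + a (n + 1) ≤ a (n + 1 + s + 1) := by
    linarith
  exact_mod_cast h6

/-- The combinatorial input with almost full proportion: `F` is much larger than `E`, although
every point of `F` spends almost all times `1,...,N` in `E` for some large `N`. -/
theorem comb2 (a : ℕ → ℕ) (hpos : ∀ n, 0 < a n) (N₀ : ℕ) (p : ℕ) (hp : 2 ≤ p)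
    (t : ℕ → ℕ) (k₀ : ℕ) (ht : ∀ k ≥ k₀, 0 < t k)
    (hr : ∀ k ≥ k₀, ∀ i, N₀ ≤ i → i < (4 * p) ^ (k + 1) →
      (1 + 1 / (t k : ℝ)) * a i ≤ a (i + 1))
    (hW : ∀ k ≥ k₀, Wt (t k) ≤ (4 * p) ^ k)
    (hdiv : ∀ (C : ℝ) (k₁ : ℕ), ∃ K : Finset ℕ, (∀ k ∈ K, k₁ ≤ k) ∧
      C ≤ ∑ k ∈ K, (1 : ℝ) / (2 * (Wt (t k) : ℝ) + 1))
    (C Nmin : ℕ) : ∃ E F : Finset ℕ, F.Nonempty ∧ C * E.card ≤ F.card ∧
      ∀ x ∈ F, ∃ N : ℕ, Nmin ≤ N ∧ 0 < N ∧
        p * ((Icc 1 N).filter (fun n => x + a n ∉ E)).card ≤ N := by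
  classical
  set M := 4 * p with hM
  obtain ⟨K, hK, hKC⟩ := hdiv (2 * p * ((C : ℝ) + 1)) (max k₀ (max N₀ Nmin))
  have hKk₀ : ∀ k ∈ K, k₀ ≤ k := fun k hk => (le_max_left _ _).trans (hK k hk)
  have hKN₀ : ∀ k ∈ K, N₀ ≤ k := fun k hk =>
    (le_max_left _ _).trans ((le_max_right _ _).trans (hK k hk))
  have hKNm : ∀ k ∈ K, Nmin ≤ k := fun k hk =>
    (le_max_right _ _).trans ((le_max_right _ _).trans (hK k hk))
  have hM2 : 2 ≤ M := by omega
  have hMpos : ∀ k, 0 < M ^ k := fun k => by positivity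
  have hkM : ∀ k, k < M ^ k := fun k => Nat.lt_pow_self (by omega)
  set B : ℕ → Finset ℕ := fun k => Ico (2 * M ^ k) (M ^ (k + 1)) with hBdef
  have hBN : ∀ k ∈ K, ∀ n ∈ B k, N₀ ≤ n := by
    intro k hk n hn
    have h1 := (mem_Ico.1 hn).1
    have h2 := hKN₀ k hk
    have h3 := hkM k
    omega
  have hMM : ∀ j k, j < k → M ^ (j + 1) ≤ M ^ k := fun j k hjk =>
    Nat.pow_le_pow_right (by omega) hjk
  have hord : ∀ j k : ℕ, ∀ n ∈ B j, ∀ m ∈ B k, n < m → j ≠ k → j < k := by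
    intro j k n hn m hm hnm hjk
    by_contra hcon
    have hkj : k < j := by omega
    have h1 := (mem_Ico.1 hn).1
    have h2 := (mem_Ico.1 hm).2
    have h3 := hMM k j hkj
    omega
  have hB : ∀ j ∈ K, ∀ k ∈ K, j ≠ k → Disjoint (B j) (B k) := by
    intro j _ k _ hjk
    rw [Finset.disjoint_left]
    intro n hn hn'
    have key : ∀ j k : ℕ, j < k → n ∈ B j → n ∈ B k → False := by
      intro j k hlt h1 h2
      have h1 := (mem_Ico.1 h1).2
      have h2 := (mem_Ico.1 h2).1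
      have h3 := hMM j k hlt
      have h4 := hMpos k
      omega
    rcases lt_or_gt_of_ne hjk with h | h
    · exact key j k h hn hn'
    · exact key k j h hn' hn
  have hWB : ∀ k ∈ K, ∀ n ∈ B k, ∀ m ∈ B k, n + Wt (t k) < m → a m + a (n + 1) ≤ a (m + 1) := by
    intro k hk n hn m hm hnm
    exact gap2 a N₀ (M ^ (k + 1)) (t k) (ht k (hKk₀ k hk)) (hr k (hKk₀ k hk)) n m (hBN k hk n hn)
      hnm (mem_Ico.1 hm).2
  have hX : ∀ j ∈ K, ∀ k ∈ K, j ≠ k → ∀ n ∈ B j, ∀ m ∈ B k, n < m →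
      a m + a (n + 1) ≤ a (m + 1) := by
    intro j hj k hk hjk n hn m hm hnm
    have hlt := hord j k n hn m hm hnm hjk
    refine gap2 a N₀ (M ^ (k + 1)) (t k) (ht k (hKk₀ k hk)) (hr k (hKk₀ k hk)) n m
      (hBN j hj n hn) ?_ (mem_Ico.1 hm).2
    have h1 := (mem_Ico.1 hn).2
    have h2 := (mem_Ico.1 hm).1
    have h3 := hMM j k hlt
    have h4 := hW k (hKk₀ k hk)
    omega
  have hBc : ∀ k, (B k).card = M ^ (k + 1) - 2 * M ^ k := by
    intro k
    rw [hBdef]
    simp only [Nat.card_Ico]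
  have hBc2 : ∀ k, (B k).card + 2 * M ^ k = M ^ (k + 1) := by
    intro k
    rw [hBc]
    have : 2 * M ^ k ≤ M ^ (k + 1) := by
      rw [pow_succ, mul_comm]
      exact Nat.mul_le_mul_left _ hM2
    omega
  have hMp : ∀ k, p * (2 * M ^ k) * 2 = M ^ (k + 1) := by
    intro k
    rw [pow_succ, hM]
    ring
  set D : ℕ → ℕ := fun k => 2 * Wt (t k) + 1 with hD
  set r : ℕ → ℕ := fun k => M ^ (k + 1) / (2 * p * D k) with hrdef
  set v₀ : ℕ → ℕ := fun k => r k + 1 with hv₀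
  have hDpos : ∀ k, 0 < D k := fun k => Nat.succ_pos _
  have hr1 : ∀ k, r k * (2 * p * D k) ≤ M ^ (k + 1) := fun k => Nat.div_mul_le_self _ _
  have hr2 : ∀ k, M ^ (k + 1) ≤ (r k + 1) * (2 * p * D k) := fun k => by
    have hpos' : 0 < 2 * p * D k := Nat.mul_pos (by omega) (hDpos k)
    have h := Nat.lt_mul_div_succ (M ^ (k + 1)) hpos'
    rw [mul_comm]
    exact h.le
  set T₀ := Fam a K B v₀ with hT₀
  set T : ℕ → Finset (Finset ℕ) := fun k => Fam a K B (Function.update v₀ k (r k)) with hT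
  have hne : T₀.Nonempty := by
    refine Fam_nonempty a K B (fun k => Wt (t k)) hB hWB hX _ v₀ ?_ rfl
    intro k _ _
    rw [hv₀]
    simp only [Nat.add_sub_cancel]
    have h1 := hr1 k
    have h2 := hBc2 k
    have h3 := hMp k
    have h4 := hMpos k
    have h5 : 4 * (r k * D k) ≤ M ^ (k + 1) := by
      calc 4 * (r k * D k) ≤ (2 * p) * (r k * D k) := Nat.mul_le_mul_right _ (by omega)
        _ = r k * (2 * p * D k) := by ring
        _ ≤ _ := h1
    have h6 : 4 * (2 * M ^ k) ≤ M ^ (k + 1) := by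
      rw [← h3]
      nlinarith
    have h7 : D k = 2 * Wt (t k) + 1 := rfl
    rw [← h7]
    omega
  have hcount : ∀ k ∈ K, T₀.card ≤ (T k).card * (2 * p * D k) := by
    intro k hk
    have h1 := count_le a K B hB v₀ k hk (r k) rfl
    have h2 : (r k + 1) * T₀.card ≤ (r k + 1) * ((T k).card * (2 * p * D k)) := by
      refine h1.trans ?_
      calc (T k).card * (B k).card ≤ (T k).card * M ^ (k + 1) :=
            Nat.mul_le_mul_left _ (by have := hBc2 k; omega)
        _ ≤ (T k).card * ((r k + 1) * (2 * p * D k)) :=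
            Nat.mul_le_mul_left _ (hr2 k)
        _ = _ := by ring
    exact Nat.le_of_mul_le_mul_left h2 (Nat.succ_pos _)
  have hdisj : ∀ j ∈ K, ∀ k ∈ K, j ≠ k → Disjoint (T j) (T k) := by
    intro j hj k hk hjk
    rw [Finset.disjoint_left]
    intro S h1 h2
    have e1 := (mem_Fam.1 h1).2.2 j hj
    have e2 := (mem_Fam.1 h2).2.2 j hj
    rw [Function.update_self] at e1
    rw [Function.update_of_ne hjk, e1] at e2
    simp [hv₀] at e2
  set σ : Finset ℕ → ℕ := fun S => ∑ n ∈ S, a n with hσ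
  have hsub : ∀ v, ∀ S ∈ Fam a K B v, ∀ n ∈ S, N₀ ≤ n := by
    intro v S hS n hn
    obtain ⟨k, hk, hnk⟩ := mem_biUnion.1 ((mem_Fam.1 hS).1 hn)
    exact hBN k hk n hnk
  have hmono : ∀ n, N₀ ≤ n → a n < a (n + 1) := by
    intro n hn
    have hk : k₀ ≤ max k₀ n := le_max_left _ _
    have h1 := hr (max k₀ n) hk n hn (by
      have h1 := hkM (max k₀ n + 1)
      have h2 : n ≤ max k₀ n := le_max_right _ _
      omega)
    have h2 : (0 : ℝ) < t (max k₀ n) := by exact_mod_cast ht _ hk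
    have h3 : (0 : ℝ) < a n := by exact_mod_cast hpos n
    have h4 : (a n : ℝ) < a (n + 1) := by
      have : 0 < 1 / (t (max k₀ n) : ℝ) := by positivity
      nlinarith
    exact_mod_cast h4
  have hinj : Set.InjOn σ (K.biUnion T : Finset (Finset ℕ)) := by
    intro S hS S' hS' h
    obtain ⟨k, _, hSk⟩ := mem_biUnion.1 (mem_coe.1 hS)
    obtain ⟨k', _, hSk'⟩ := mem_biUnion.1 (mem_coe.1 hS')
    exact sum_inj a hpos N₀ hmono S S' (hsub _ S hSk) (hsub _ S' hSk') (mem_Fam.1 hSk).2.1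
      (mem_Fam.1 hSk').2.1 h
  have hp0 : (0 : ℝ) < p := by
    have : 0 < p := by omega
    exact_mod_cast this
  refine ⟨T₀.image σ, (K.biUnion T).image σ, ?_, ?_, ?_⟩
  · obtain ⟨k, hk⟩ : K.Nonempty := by
      by_contra h
      rw [not_nonempty_iff_eq_empty] at h
      rw [h, sum_empty] at hKC
      have : (0 : ℝ) ≤ C := Nat.cast_nonneg C
      have : (0 : ℝ) < 2 * p * ((C : ℝ) + 1) := by positivity
      linarith
    have h1 := hcount k hk
    have h2 : (T k).Nonempty := by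
      rw [← card_pos]
      by_contra h
      have h0 : (T k).card = 0 := by omega
      rw [h0, zero_mul] at h1
      have := hne.card_pos
      omega
    obtain ⟨S, hS⟩ := h2
    exact ⟨σ S, mem_image_of_mem _ (mem_biUnion.2 ⟨k, hk, hS⟩)⟩
  · rw [card_image_of_injOn hinj, card_biUnion hdisj]
    have h1 : (C : ℝ) * (T₀.card : ℝ) ≤ ((∑ k ∈ K, (T k).card : ℕ) : ℝ) := by
      push_cast
      have h2 : ∀ k ∈ K, (T₀.card : ℝ) * (1 / (2 * p)) * (1 / (2 * (Wt (t k) : ℝ) + 1)) ≤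
          (T k).card := by
        intro k hk
        rw [mul_one_div, mul_one_div, div_div, div_le_iff₀ (by positivity)]
        have := hcount k hk
        have h' : (T₀.card : ℝ) ≤ (T k).card * (2 * p * (2 * (Wt (t k) : ℝ) + 1)) := by
          exact_mod_cast this
        exact h'
      calc (C : ℝ) * (T₀.card : ℝ)
          ≤ (T₀.card : ℝ) * (1 / (2 * p)) * (2 * p * ((C : ℝ) + 1)) := by
            have e : (T₀.card : ℝ) * (1 / (2 * p)) * (2 * p * ((C : ℝ) + 1)) =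
                (T₀.card : ℝ) * ((C : ℝ) + 1) := by
              field_simp
            rw [e]
            have : (0 : ℝ) ≤ T₀.card := Nat.cast_nonneg _
            nlinarith
        _ ≤ (T₀.card : ℝ) * (1 / (2 * p)) * ∑ k ∈ K, (1 : ℝ) / (2 * (Wt (t k) : ℝ) + 1) :=
            mul_le_mul_of_nonneg_left hKC (by positivity)
        _ = ∑ k ∈ K, (T₀.card : ℝ) * (1 / (2 * p)) * (1 / (2 * (Wt (t k) : ℝ) + 1)) :=
            mul_sum _ _ _
        _ ≤ _ := sum_le_sum h2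
    have h3 : C * T₀.card ≤ ∑ k ∈ K, (T k).card := by exact_mod_cast h1
    exact (Nat.mul_le_mul_left _ card_image_le).trans h3
  · intro x hx
    obtain ⟨S, hS, rfl⟩ := mem_image.1 hx
    obtain ⟨k, hk, hSk⟩ := mem_biUnion.1 hS
    obtain ⟨A, hA, hcard, hAm⟩ := avail a K B (fun k => Wt (t k)) hB hWB hX _ k hk S hSk
    rw [Function.update_self, Function.update_idem] at hAm
    rw [Function.update_self] at hcard
    have hv : Function.update v₀ k (r k + 1) = v₀ := Function.update_eq_self _ _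
    rw [hv] at hAm
    refine ⟨M ^ (k + 1), ?_, hMpos _, ?_⟩
    · have h1 := hKNm k hk
      have h2 := hkM (k + 1)
      omega
    · have h1 : (Icc 1 (M ^ (k + 1))).filter (fun n => σ S + a n ∉ T₀.image σ) ⊆
          Icc 1 (M ^ (k + 1)) \ A := by
        intro n hn
        rw [mem_filter] at hn
        rw [mem_sdiff]
        refine ⟨hn.1, fun hnA => hn.2 (mem_image.2 ⟨insert n S, (hAm n hnA).2, ?_⟩)⟩
        rw [hσ]
        simp only
        rw [sum_insert (hAm n hnA).1, add_comm]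
      have hAI : A ⊆ Icc 1 (M ^ (k + 1)) := by
        intro n hn
        have h2 := mem_Ico.1 (hA hn)
        rw [mem_Icc]
        have := hMpos k
        omega
      have h2 := card_le_card h1
      rw [card_sdiff_of_subset hAI, Nat.card_Icc] at h2
      have h3 := hr1 k
      have h4 := hBc2 k
      have h5 := hMp k
      have h7 : D k = 2 * Wt (t k) + 1 := rfl
      rw [← h7] at hcard
      have h8 : ((Icc 1 (M ^ (k + 1))).filter (fun n => σ S + a n ∉ T₀.image σ)).card ≤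
          2 * M ^ k + r k * D k := by omega
      have h9 : p * (r k * D k) * 2 ≤ M ^ (k + 1) := by
        calc p * (r k * D k) * 2 = r k * (2 * p * D k) := by ring
          _ ≤ _ := h3
      calc p * ((Icc 1 (M ^ (k + 1))).filter (fun n => σ S + a n ∉ T₀.image σ)).card
          ≤ p * (2 * M ^ k + r k * D k) := Nat.mul_le_mul_left _ h8
        _ = p * (2 * M ^ k) + p * (r k * D k) := by ring
        _ ≤ M ^ (k + 1) := by omega

end Pool.Agent.Y249.BG
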