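import Pool.Agent.Y249.BG.Growth2

set_option autoImplicit false
open Finset

namespace Pool.Agent.Y249.BG

theorem not_summable_Wt (A : ℕ) (hA : 0 < A) :
    ¬ Summable (fun k : ℕ => (1 : ℝ) / (2 * (Wt (A * (k + 1)) : ℝ) + 1)) := by
  rw [← summable_condensed_iff_of_nonneg]
  · intro hs
    have hA' : (1 : ℝ) ≤ A := by exact_mod_cast hA
    have h1 : Summable (fun i : ℕ => (1 / (5 * A) : ℝ) * (1 / ((i + (A + 2) : ℕ) : ℝ))) := by
      refine Summable.of_nonneg_of_le (fun i => by positivity) (fun i => ?_) hs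
      have hW : Wt (A * (2 ^ i + 1)) ≤ (A * 2 ^ (i + 1)) * (i + (A + 2)) := by
        have e1 : 2 ^ i + 1 ≤ 2 ^ (i + 1) := by
          have := Nat.one_le_two_pow (n := i)
          rw [pow_succ]
          omega
        refine (Wt_mono (Nat.mul_le_mul_left A e1)).trans ?_
        unfold Wt
        refine Nat.mul_le_mul_left _ ?_
        have e2 : A * 2 ^ (i + 1) ≤ 2 ^ (A + (i + 1)) := by
          calc A * 2 ^ (i + 1) ≤ 2 ^ A * 2 ^ (i + 1) :=
                Nat.mul_le_mul_right _ Nat.lt_two_pow_self.le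
            _ = _ := (pow_add _ _ _).symm
        have e3 : Nat.log 2 (A * 2 ^ (i + 1)) ≤ A + (i + 1) := by
          calc Nat.log 2 (A * 2 ^ (i + 1)) ≤ Nat.log 2 (2 ^ (A + (i + 1))) := Nat.log_mono_right e2
            _ = A + (i + 1) := Nat.log_pow (by norm_num) _
        omega
      have hW' : (Wt (A * (2 ^ i + 1)) : ℝ) ≤ (A * 2 ^ (i + 1)) * ((i + (A + 2) : ℕ) : ℝ) := by
        exact_mod_cast hW
      have hpos : (0 : ℝ) < 2 ^ i := by positivity
      have h1le : (1 : ℝ) ≤ 2 ^ i := one_le_pow₀ (by norm_num)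
      have hi : (1 : ℝ) ≤ ((i + (A + 2) : ℕ) : ℝ) := by
        have : 1 ≤ i + (A + 2) := by omega
        exact_mod_cast this
      have hW2 : 2 * (Wt (A * (2 ^ i + 1)) : ℝ) + 1 ≤
          2 ^ i * (5 * A * ((i + (A + 2) : ℕ) : ℝ)) := by
        rw [pow_succ] at hW'
        have h3 : (1 : ℝ) ≤ 2 ^ i * (A * ((i + (A + 2) : ℕ) : ℝ)) := by
          have := one_le_mul_of_one_le_of_one_le hA' hi
          exact one_le_mul_of_one_le_of_one_le h1le this
        nlinarith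
      have e3 : (1 / (5 * A) : ℝ) * (1 / ((i + (A + 2) : ℕ) : ℝ)) =
          1 / (5 * A * ((i + (A + 2) : ℕ) : ℝ)) := by
        rw [one_div_mul_one_div]
      rw [e3, mul_one_div, div_le_div_iff₀ (by positivity) (by positivity)]
      linarith
    rw [summable_mul_left_iff (by positivity)] at h1
    have h2 := (summable_nat_add_iff (f := fun n : ℕ => 1 / (n : ℝ)) (A + 2)).1 h1
    exact Real.not_summable_one_div_natCast h2
  · intro n; positivity
  · intro m n _ hmn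
    have : Wt (A * (m + 1)) ≤ Wt (A * (n + 1)) := Wt_mono (Nat.mul_le_mul_left _ (by omega))
    have : (Wt (A * (m + 1)) : ℝ) ≤ Wt (A * (n + 1)) := by exact_mod_cast this
    apply one_div_le_one_div_of_le (by positivity)
    linarith

theorem exists_K2 (A : ℕ) (hA : 0 < A) (C : ℝ) (k₀ : ℕ) : ∃ K : Finset ℕ, (∀ k ∈ K, k₀ ≤ k) ∧
    C ≤ ∑ k ∈ K, (1 : ℝ) / (2 * (Wt (A * (k + 1)) : ℝ) + 1) := by
  have h := (not_summable_iff_tendsto_nat_atTop_of_nonneg (fun n => by positivity)).1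
    (not_summable_Wt A hA)
  obtain ⟨n, hn, hnk⟩ := ((h.eventually_ge_atTop
    (C + ∑ i ∈ range k₀, (1 : ℝ) / (2 * (Wt (A * (i + 1)) : ℝ) + 1))).and
      (Filter.eventually_ge_atTop k₀)).exists
  refine ⟨Ico k₀ n, fun k hk => (mem_Ico.1 hk).1, ?_⟩
  rw [sum_Ico_eq_sub _ hnk]
  linarith

/-- The combinatorial input for sequences with ratio at least `1 + c / log n`. -/
theorem comb3 (a : ℕ → ℕ) (hpos : ∀ n, 0 < a n) (c : ℝ) (hc : 0 < c)
    (hg : ∃ n₀ : ℕ, ∀ n ≥ n₀, ((a (n + 1) : ℝ) / (a n : ℝ)) ≥ 1 + c / Real.log (n : ℝ))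
    (p : ℕ) (hp : 2 ≤ p) (C Nmin : ℕ) :
    ∃ E F : Finset ℕ, F.Nonempty ∧ C * E.card ≤ F.card ∧
      ∀ x ∈ F, ∃ N : ℕ, Nmin ≤ N ∧ 0 < N ∧
        p * ((Icc 1 N).filter (fun n => x + a n ∉ E)).card ≤ N := by
  obtain ⟨n₀, hn₀⟩ := hg
  have hp' : (2 : ℝ) ≤ p := by exact_mod_cast hp
  have hlogp : 0 < Real.log ((4 * p : ℕ) : ℝ) := Real.log_pos (by push_cast; linarith)
  obtain ⟨A, hA⟩ := exists_nat_gt (Real.log ((4 * p : ℕ) : ℝ) / c)
  have hA0' : (0 : ℝ) < A := (div_pos hlogp hc).trans hA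
  have hA0 : 0 < A := by exact_mod_cast hA0'
  have hAc : Real.log ((4 * p : ℕ) : ℝ) ≤ A * c := by
    rw [div_lt_iff₀ hc] at hA
    exact hA.le
  refine comb2 a hpos (max n₀ 2) p hp (fun k => A * (k + 1)) (2 * A + 2)
    (fun k _ => Nat.mul_pos hA0 (Nat.succ_pos _)) ?_ ?_ (fun C k₁ => exists_K2 A hA0 C k₁) C Nmin
  · intro k _ i hi hik
    have h1 := hn₀ i ((le_max_left _ _).trans hi)
    have hi2 : 2 ≤ i := (le_max_right _ _).trans hi
    have ha : (0 : ℝ) < a i := by exact_mod_cast hpos i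
    rw [ge_iff_le, le_div_iff₀ ha] at h1
    refine le_trans ?_ h1
    apply mul_le_mul_of_nonneg_right _ ha.le
    have hlog : 0 < Real.log (i : ℝ) := Real.log_pos (by exact_mod_cast hi2)
    have hlog2 : Real.log (i : ℝ) ≤ ((k : ℝ) + 1) * Real.log ((4 * p : ℕ) : ℝ) := by
      have hle : (i : ℝ) ≤ ((4 * p : ℕ) : ℝ) ^ (k + 1) := by exact_mod_cast hik.le
      calc Real.log (i : ℝ) ≤ Real.log (((4 * p : ℕ) : ℝ) ^ (k + 1)) :=
            Real.log_le_log (by have : 0 < i := by omega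
                                exact_mod_cast this) hle
        _ = ((k : ℝ) + 1) * Real.log ((4 * p : ℕ) : ℝ) := by rw [Real.log_pow]; push_cast; ring
    have h3 : 1 / ((A * (k + 1) : ℕ) : ℝ) ≤ c / Real.log (i : ℝ) := by
      rw [div_le_div_iff₀ (by positivity) hlog]
      push_cast
      have hk1 : (0 : ℝ) < (k : ℝ) + 1 := by positivity
      have h4 : ((k : ℝ) + 1) * Real.log ((4 * p : ℕ) : ℝ) ≤ ((k : ℝ) + 1) * (A * c) :=
        mul_le_mul_of_nonneg_left hAc hk1.le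
      linarith
    linarith
  · intro k hk
    have h1 : A * (k + 1) ≤ 2 ^ (A + (k + 1)) := by
      rw [pow_add]
      exact Nat.mul_le_mul Nat.lt_two_pow_self.le Nat.lt_two_pow_self.le
    calc Wt (A * (k + 1)) ≤ (A * (k + 1)) * (A * (k + 1)) := Wt_le_sq _
      _ ≤ 2 ^ (A + (k + 1)) * 2 ^ (A + (k + 1)) := Nat.mul_le_mul h1 h1
      _ = 2 ^ (2 * A + 2 + 2 * k) := by rw [← pow_add]; congr 1; ring
      _ ≤ 2 ^ (3 * k) := Nat.pow_le_pow_right (by norm_num) (by omega)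
      _ = 8 ^ k := by rw [pow_mul]; norm_num
      _ ≤ (4 * p) ^ k := Nat.pow_le_pow_left (by omega) k

end Pool.Agent.Y249.BG
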