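import Mathlib

set_option autoImplicit false
open MeasureTheory Set Filter
open scoped ENNReal

namespace Pool.Agent.Y249.BG

variable {X : Type*} [MeasurableSpace X]

theorem measure_diff_iter (μ : Measure X) [IsProbabilityMeasure μ] (T : X → X)
    (hT : MeasurePreserving T μ μ) (U : Set X) (hU : MeasurableSet U) (i : ℕ)
    (hsub : T^[i] ⁻¹' U ⊆ U) : μ (U \ T^[i] ⁻¹' U) = 0 := by
  have hi := hT.iterate i
  rw [measure_sdiff hsub (hi.measurable hU).nullMeasurableSet (measure_ne_top _ _),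
    hi.measure_preimage hU.nullMeasurableSet, tsub_self]

/-- In an aperiodic system there are sets of small measure which almost every point enters. -/
theorem exists_sweep [MeasurableSpace.CountablySeparated X] (μ : Measure X)
    [IsProbabilityMeasure μ] (T : X → X) (hT : MeasurePreserving T μ μ)
    (hap : ∀ k ≥ 1, μ {x | T^[k] x = x} = 0) (m : ℕ) :
    ∃ A : Set X, MeasurableSet A ∧ m * μ A ≤ 1 ∧ μ {x | ∀ n, T^[n] x ∉ A} = 0 := by
  obtain ⟨τ, hsc, hT4, hom⟩ := exists_opensMeasurableSpace_of_countablySeparated X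
  obtain ⟨b, hbc, -, hb⟩ := TopologicalSpace.exists_countable_basis X
  obtain ⟨C, hC⟩ : ∃ C : ℕ → Set X, insert ∅ b = range C :=
    (hbc.insert ∅).exists_eq_range (insert_nonempty _ _)
  have hCopen : ∀ j, IsOpen (C j) := by
    intro j
    have : C j ∈ insert ∅ b := hC ▸ mem_range_self j
    rcases this with h | h
    · rw [h]; exact isOpen_empty
    · exact hb.isOpen h
  have hCm : ∀ j, MeasurableSet (C j) := fun j => (hCopen j).measurableSet
  set Bj : ℕ → Set X := fun j => C j ∩ ⋂ i ∈ Ico 1 m, T^[i] ⁻¹' (C j)ᶜ with hBj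
  have hBm : ∀ j, MeasurableSet (Bj j) := fun j =>
    (hCm j).inter (MeasurableSet.biInter (to_countable _) fun i _ =>
      (hT.iterate i).measurable (hCm j).compl)
  set U : ℕ → Set X := fun j => ⋃ n : ℕ, T^[n] ⁻¹' (Bj j) with hU
  have hUm : ∀ j, MeasurableSet (U j) := fun j =>
    MeasurableSet.iUnion fun n => (hT.iterate n).measurable (hBm j)
  have hUi : ∀ j i, T^[i] ⁻¹' (U j) ⊆ U j := by
    intro j i x hx
    obtain ⟨n, hn⟩ := mem_iUnion.1 (show T^[i] x ∈ U j from hx)
    refine mem_iUnion.2 ⟨n + i, ?_⟩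
    rw [mem_preimage, Function.iterate_add_apply]
    exact hn
  set Bp : ℕ → Set X := fun j => Bj j \ ⋃ l ∈ Iio j, U l with hBp
  have hBpm : ∀ j, MeasurableSet (Bp j) := fun j =>
    (hBm j).diff (MeasurableSet.biUnion (to_countable _) fun l _ => hUm l)
  set V : ℕ → Set X := fun j => U j \ ⋃ l ∈ Iio j, U l with hV
  have hVm : ∀ j, MeasurableSet (V j) := fun j =>
    (hUm j).diff (MeasurableSet.biUnion (to_countable _) fun l _ => hUm l)
  have hVd : Pairwise (Function.onFun Disjoint V) := by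
    have key : ∀ i j, i < j → Disjoint (V i) (V j) := by
      intro i j hij
      rw [Set.disjoint_left]
      intro x hx hx'
      exact hx'.2 (mem_biUnion (show i ∈ Iio j from hij) hx.1)
    intro i j hij
    rcases lt_or_gt_of_ne hij with h | h
    · exact key i j h
    · exact (key j i h).symm
  have hsubV : ∀ j i, μ (T^[i] ⁻¹' (Bp j) \ V j) = 0 := by
    intro j i
    have hsub : T^[i] ⁻¹' (Bp j) \ V j ⊆ ⋃ l ∈ Iio j, (U l \ T^[i] ⁻¹' (U l)) := by
      intro x hx
      obtain ⟨hx1, hx2⟩ := hx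
      have h1 : T^[i] x ∈ Bp j := hx1
      have h2 : x ∈ U j := mem_iUnion.2 ⟨i, h1.1⟩
      have h3 : x ∈ ⋃ l ∈ Iio j, U l := by
        by_contra h
        exact hx2 ⟨h2, h⟩
      obtain ⟨l, hl, hxl⟩ := mem_iUnion₂.1 h3
      refine mem_iUnion₂.2 ⟨l, hl, hxl, fun h => h1.2 (mem_iUnion₂.2 ⟨l, hl, h⟩)⟩
    refine measure_mono_null hsub ?_
    rw [measure_biUnion_null_iff (to_countable _)]
    intro l _
    exact measure_diff_iter μ T hT (U l) (hUm l) i (hUi l i)
  have hdisj : ∀ j, ∀ i < m, ∀ i' < m, i < i' →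
      Disjoint (T^[i] ⁻¹' (Bp j)) (T^[i'] ⁻¹' (Bp j)) := by
    intro j i _ i' hi' hii'
    rw [Set.disjoint_left]
    intro x hx hx'
    have h1 : T^[i] x ∈ Bj j := hx.1
    have h2 : T^[i'] x ∈ Bj j := hx'.1
    have h3 : T^[i'] x = T^[i' - i] (T^[i] x) := by
      rw [← Function.iterate_add_apply, Nat.sub_add_cancel hii'.le]
    have h4 := mem_iInter₂.1 h1.2 (i' - i) ⟨by omega, by omega⟩
    rw [mem_preimage, ← h3] at h4
    exact h4 h2.1
  have hmB : ∀ j, (m : ℝ≥0∞) * μ (Bp j) ≤ μ (V j) := by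
    intro j
    have h1 : μ (⋃ i ∈ Finset.range m, T^[i] ⁻¹' (Bp j)) =
        ∑ i ∈ Finset.range m, μ (T^[i] ⁻¹' (Bp j)) := by
      apply measure_biUnion_finset
      · intro i hi i' hi' hii'
        have hi := Finset.mem_range.1 (Finset.mem_coe.1 hi)
        have hi' := Finset.mem_range.1 (Finset.mem_coe.1 hi')
        rcases lt_or_gt_of_ne hii' with h | h
        · exact hdisj j i hi i' hi' h
        · exact (hdisj j i' hi' i hi h).symm
      · intro i _
        exact (hT.iterate i).measurable (hBpm j)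
    have h2 : ∀ i ∈ Finset.range m, μ (T^[i] ⁻¹' (Bp j)) = μ (Bp j) := fun i _ =>
      (hT.iterate i).measure_preimage (hBpm j).nullMeasurableSet
    rw [Finset.sum_congr rfl h2, Finset.sum_const, Finset.card_range, nsmul_eq_mul] at h1
    rw [← h1]
    refine measure_mono_ae ?_
    rw [ae_le_set]
    have h3 : (⋃ i ∈ Finset.range m, T^[i] ⁻¹' (Bp j)) \ V j ⊆
        ⋃ i : ℕ, (T^[i] ⁻¹' (Bp j) \ V j) := by
      intro x hx
      obtain ⟨i, _, hi⟩ := mem_iUnion₂.1 hx.1
      exact mem_iUnion.2 ⟨i, hi, hx.2⟩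
    exact measure_mono_null h3 (measure_iUnion_null fun i => hsubV j i)
  refine ⟨⋃ j, Bp j, MeasurableSet.iUnion hBpm, ?_, ?_⟩
  · calc (m : ℝ≥0∞) * μ (⋃ j, Bp j) ≤ m * ∑' j, μ (Bp j) := by
          gcongr
          exact measure_iUnion_le _
      _ = ∑' j, m * μ (Bp j) := ENNReal.tsum_mul_left.symm
      _ ≤ ∑' j, μ (V j) := ENNReal.tsum_le_tsum hmB
      _ = μ (⋃ j, V j) := (measure_iUnion hVd hVm).symm
      _ ≤ 1 := prob_le_one
  · have hsub : {x | ∀ n, T^[n] x ∉ ⋃ j, Bp j} ⊆ ⋃ k ∈ Ico 1 m, {x | T^[k] x = x} := by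
      intro x hx
      by_contra hcon
      have hne : ∀ k ∈ Ico 1 m, T^[k] x ≠ x := by
        intro k hk h
        exact hcon (mem_iUnion₂.2 ⟨k, hk, h⟩)
      have hfin : ((fun k => T^[k] x) '' (Ico 1 m)).Finite := (finite_Ico 1 m).image _
      have hopen : IsOpen ((fun k => T^[k] x) '' (Ico 1 m))ᶜ := hfin.isClosed.isOpen_compl
      have hxmem : x ∈ ((fun k => T^[k] x) '' (Ico 1 m))ᶜ := by
        rintro ⟨k, hk, h⟩
        exact hne k hk h
      obtain ⟨u, hub, hxu, hu⟩ := hb.exists_subset_of_mem_open hxmem hopen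
      obtain ⟨j, hj⟩ : u ∈ range C := hC ▸ mem_insert_of_mem _ hub
      have hxB : x ∈ Bj j :=
        ⟨hj ▸ hxu, mem_iInter₂.2 fun i hi h => hu (hj ▸ h) ⟨i, hi, rfl⟩⟩
      have hex : ∃ j, x ∈ U j := ⟨j, mem_iUnion.2 ⟨0, hxB⟩⟩
      classical
      obtain ⟨n, hn⟩ := mem_iUnion.1 (Nat.find_spec hex)
      refine hx n (mem_iUnion.2 ⟨Nat.find hex, hn, ?_⟩)
      intro h
      obtain ⟨l, hl, hxl⟩ := mem_iUnion₂.1 h
      exact Nat.find_min hex hl (hUi l n hxl)
    refine measure_mono_null hsub ?_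
    rw [measure_biUnion_null_iff (to_countable _)]
    intro k hk
    exact hap k hk.1

/-- Rokhlin's lemma for aperiodic, not necessarily invertible, systems. -/
theorem rokhlin [MeasurableSpace.CountablySeparated X] (μ : Measure X)
    [IsProbabilityMeasure μ] (T : X → X) (hT : MeasurePreserving T μ μ)
    (hap : ∀ k ≥ 1, μ {x | T^[k] x = x} = 0) (H q : ℕ) (hH : 0 < H) :
    ∃ B : Set X, MeasurableSet B ∧
      (∀ i < H, ∀ j < H, i ≠ j → Disjoint (T^[i] ⁻¹' B) (T^[j] ⁻¹' B)) ∧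
      q * μ (⋃ i ∈ Finset.range H, T^[i] ⁻¹' B)ᶜ ≤ 1 := by
  obtain ⟨A, hAm, hA1, hA2⟩ := exists_sweep μ T hT hap (q * H)
  set R : ℕ → Set X := fun n => T^[n] ⁻¹' A ∩ ⋂ i ∈ Iio n, (T^[i] ⁻¹' A)ᶜ with hR
  have hRm : ∀ n, MeasurableSet (R n) := fun n =>
    ((hT.iterate n).measurable hAm).inter (MeasurableSet.biInter (to_countable _) fun i _ =>
      ((hT.iterate i).measurable hAm).compl)
  have hRiff : ∀ n x, x ∈ R n ↔ T^[n] x ∈ A ∧ ∀ i < n, T^[i] x ∉ A := by
    intro n x
    constructor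
    · intro h
      exact ⟨h.1, fun i hi h' => mem_iInter₂.1 h.2 i hi h'⟩
    · rintro ⟨h1, h2⟩
      exact ⟨h1, mem_iInter₂.2 fun i hi h' => h2 i hi h'⟩
  set B : Set X := ⋃ k : ℕ, R ((k + 1) * H) with hB
  have hdis : ∀ i < H, ∀ j < H, i < j → Disjoint (T^[i] ⁻¹' B) (T^[j] ⁻¹' B) := by
    intro i _ j hj hij
    rw [Set.disjoint_left]
    intro x hx hx'
    obtain ⟨k, hk⟩ := mem_iUnion.1 (show T^[i] x ∈ B from hx)
    obtain ⟨l, hl⟩ := mem_iUnion.1 (show T^[j] x ∈ B from hx')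
    rw [hRiff] at hk hl
    have hj' : T^[j] x = T^[j - i] (T^[i] x) := by
      rw [← Function.iterate_add_apply, Nat.sub_add_cancel hij.le]
    rw [hj'] at hl
    set y := T^[i] x with hy
    set d := j - i with hd
    have hd0 : 0 < d := by omega
    have hdH : d < H := by omega
    have hkH : H ≤ (k + 1) * H := Nat.le_mul_of_pos_left _ (Nat.succ_pos _)
    have h1 : ¬ ((l + 1) * H + d < (k + 1) * H) := by
      intro h
      refine hk.2 _ h ?_
      rw [Function.iterate_add_apply]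
      exact hl.1
    have h2 : ¬ ((k + 1) * H - d < (l + 1) * H) := by
      intro h
      refine hl.2 _ h ?_
      rw [← Function.iterate_add_apply, Nat.sub_add_cancel (hdH.le.trans hkH)]
      exact hk.1
    have h3 : (k + 1) * H = (l + 1) * H + d := by omega
    have h4 : H ∣ d := by
      rw [← Nat.dvd_add_right (Dvd.intro_left (l + 1) rfl : H ∣ (l + 1) * H), ← h3]
      exact Dvd.intro_left (k + 1) rfl
    have := Nat.le_of_dvd hd0 h4
    omega
  refine ⟨B, MeasurableSet.iUnion fun k => hRm _, ?_, ?_⟩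
  · intro i hi j hj hij
    rcases lt_or_gt_of_ne hij with h | h
    · exact hdis i hi j hj h
    · exact (hdis j hj i hi h).symm
  · have hsub : (⋃ i ∈ Finset.range H, T^[i] ⁻¹' B)ᶜ ⊆
        {x | ∀ n, T^[n] x ∉ A} ∪ ⋃ n ∈ Finset.range H, T^[n] ⁻¹' A := by
      intro x hx
      by_contra hcon
      rw [mem_union, not_or] at hcon
      obtain ⟨h1, h2⟩ := hcon
      have hex : ∃ n, T^[n] x ∈ A := by
        by_contra h
        push Not at h
        exact h1 h
      classical
      set n := Nat.find hex with hn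
      have hn1 : T^[n] x ∈ A := Nat.find_spec hex
      have hn2 : ∀ i < n, T^[i] x ∉ A := fun i hi => Nat.find_min hex hi
      have hnH : H ≤ n := by
        by_contra h
        exact h2 (mem_iUnion₂.2 ⟨n, Finset.mem_range.2 (by omega), hn1⟩)
      refine hx (mem_iUnion₂.2 ⟨n % H, Finset.mem_range.2 (Nat.mod_lt _ hH), ?_⟩)
      have hdiv : 1 ≤ n / H := (Nat.one_le_div_iff hH).2 hnH
      refine mem_iUnion.2 ⟨n / H - 1, ?_⟩
      rw [Nat.sub_add_cancel hdiv, hRiff]
      have hdm : n / H * H + n % H = n := by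
        rw [mul_comm]
        exact Nat.div_add_mod n H
      refine ⟨?_, fun i hi => ?_⟩
      · rw [← Function.iterate_add_apply, hdm]
        exact hn1
      · rw [← Function.iterate_add_apply]
        exact hn2 _ (by omega)
    have h1 : μ (⋃ n ∈ Finset.range H, T^[n] ⁻¹' A) ≤ H * μ A := by
      refine (measure_biUnion_finset_le _ _).trans ?_
      have h2 : ∀ i ∈ Finset.range H, μ (T^[i] ⁻¹' A) = μ A := fun i _ =>
        (hT.iterate i).measure_preimage hAm.nullMeasurableSet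
      rw [Finset.sum_congr rfl h2, Finset.sum_const, Finset.card_range, nsmul_eq_mul]
    calc (q : ℝ≥0∞) * μ (⋃ i ∈ Finset.range H, T^[i] ⁻¹' B)ᶜ
        ≤ q * (0 + H * μ A) := by
          gcongr
          refine (measure_mono hsub).trans ((measure_union_le _ _).trans ?_)
          rw [hA2]
          gcongr
      _ = ((q * H : ℕ) : ℝ≥0∞) * μ A := by
          push_cast
          rw [zero_add, mul_assoc]
      _ ≤ 1 := hA1

end Pool.Agent.Y249.BG
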