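import Pool.Agent.Y249.BG.Rokhlin

set_option autoImplicit false
open MeasureTheory Set Filter
open scoped ENNReal

namespace Pool.Agent.Y249.BG

/-- The input in cyclic groups. -/
def CycIn (a : ℕ → ℕ) : Prop := ∀ p : ℕ, 2 ≤ p → ∀ D Nmin : ℕ,
    ∃ (Q : ℕ) (_ : NeZero Q) (E F : Finset (ZMod Q)) (Nmax : ℕ),
      p * (Fᶜ).card ≤ Q ∧ D * E.card ≤ Q ∧
      ∀ x ∈ F, ∃ N : ℕ, Nmin ≤ N ∧ 0 < N ∧ N ≤ Nmax ∧
        p * ((Finset.Icc 1 N).filter (fun n => x + ((a n : ℕ) : ZMod Q) ∉ E)).card ≤ N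

theorem card_residue (Q J : ℕ) [NeZero Q] (P : Finset (ZMod Q)) :
    ((Finset.range (Q * J)).filter (fun i : ℕ => (-(i : ZMod Q)) ∈ P)).card ≤ J * P.card := by
  classical
  have hQ0 : 0 < Q := Nat.pos_of_ne_zero (NeZero.ne Q)
  rw [← Finset.card_range J, ← Finset.card_product, Finset.card_range]
  refine Finset.card_le_card_of_injOn (fun i => (i / Q, -(i : ZMod Q))) ?_ ?_
  · intro i hi
    rw [Finset.mem_coe, Finset.mem_filter, Finset.mem_range] at hi
    rw [Finset.mem_coe, Finset.mem_product, Finset.mem_range]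
    exact ⟨Nat.div_lt_of_lt_mul hi.1, hi.2⟩
  · intro i _ j _ hij
    simp only [Prod.mk.injEq, neg_inj] at hij
    have h1 : i % Q = j % Q := by
      have := congrArg ZMod.val hij.2
      simpa only [ZMod.val_natCast] using this
    rw [← Nat.div_add_mod i Q, ← Nat.div_add_mod j Q, hij.1, h1]

variable {X : Type*} [MeasurableSpace X]

/-- Transfer of the cyclic input to an aperiodic system. -/
theorem stage [MeasurableSpace.CountablySeparated X] (μ : Measure X)
    [IsProbabilityMeasure μ] (T : X → X) (hT : MeasurePreserving T μ μ)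
    (hap : ∀ k ≥ 1, μ {x | T^[k] x = x} = 0) (a : ℕ → ℕ) (hc : CycIn a)
    (p : ℕ) (hp : 2 ≤ p) (D Nmin : ℕ) :
    ∃ (G : Set X) (Nmax : ℕ), MeasurableSet G ∧ D * μ G ≤ 1 ∧
      p * μ {x | ¬ ∃ N : ℕ, Nmin ≤ N ∧ 0 < N ∧ N ≤ Nmax ∧
        p * (((Finset.Icc 1 N : Finset ℕ) : Set ℕ) ∩ {n | T^[a n] x ∉ G}).ncard ≤ N} ≤ 3 := by
  classical
  obtain ⟨Q, hNZ, E, F, Nmax, hF, hE, hx⟩ := hc p hp D Nmin
  have hQ0 : 0 < Q := Nat.pos_of_ne_zero (NeZero.ne Q)
  set L := (Finset.Icc 1 Nmax).sup a with hL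
  set J := p * L + 1 with hJ
  set H := Q * J with hH
  have hH0 : 0 < H := Nat.mul_pos hQ0 (Nat.succ_pos _)
  obtain ⟨B, hBm, hBd, hBt⟩ := rokhlin μ T hT hap H p hH0
  have hpre : ∀ i, μ (T^[i] ⁻¹' B) = μ B := fun i =>
    (hT.iterate i).measure_preimage hBm.nullMeasurableSet
  have hHb : (H : ℝ≥0∞) * μ B ≤ 1 := by
    have h1 : μ (⋃ i ∈ Finset.range H, T^[i] ⁻¹' B) =
        ∑ i ∈ Finset.range H, μ (T^[i] ⁻¹' B) := by
      apply measure_biUnion_finset
      · intro i hi j hj hij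
        exact hBd i (Finset.mem_range.1 (Finset.mem_coe.1 hi)) j
          (Finset.mem_range.1 (Finset.mem_coe.1 hj)) hij
      · intro i _
        exact (hT.iterate i).measurable hBm
    rw [Finset.sum_congr rfl (fun i _ => hpre i), Finset.sum_const, Finset.card_range,
      nsmul_eq_mul] at h1
    rw [← h1]
    exact prob_le_one
  have hun : ∀ I : Finset ℕ, μ (⋃ i ∈ I, T^[i] ⁻¹' B) ≤ I.card * μ B := by
    intro I
    refine (measure_biUnion_finset_le _ _).trans ?_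
    rw [Finset.sum_congr rfl (fun i _ => hpre i), Finset.sum_const, nsmul_eq_mul]
  set IE := (Finset.range H).filter (fun i : ℕ => (-(i : ZMod Q)) ∈ E) with hIE
  set IF := (Finset.range H).filter (fun i : ℕ => (-(i : ZMod Q)) ∈ Fᶜ) with hIF
  have hIEc : IE.card ≤ J * E.card := card_residue Q J E
  have hIFc : IF.card ≤ J * (Fᶜ).card := card_residue Q J Fᶜ
  set G : Set X := ⋃ i ∈ IE, T^[i] ⁻¹' B with hG
  have hGm : MeasurableSet G := Finset.measurableSet_biUnion _ fun i _ =>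
    (hT.iterate i).measurable hBm
  refine ⟨G, Nmax, hGm, ?_, ?_⟩
  · calc (D : ℝ≥0∞) * μ G ≤ D * (IE.card * μ B) := by
          gcongr
          exact hun IE
      _ = ((D * IE.card : ℕ) : ℝ≥0∞) * μ B := by push_cast; rw [mul_assoc]
      _ ≤ ((H : ℕ) : ℝ≥0∞) * μ B := by
          gcongr
          calc D * IE.card ≤ D * (J * E.card) := Nat.mul_le_mul_left _ hIEc
            _ = (D * E.card) * J := by ring
            _ ≤ Q * J := Nat.mul_le_mul_right _ hE
      _ ≤ 1 := hHb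
  · have hsub : {x | ¬ ∃ N : ℕ, Nmin ≤ N ∧ 0 < N ∧ N ≤ Nmax ∧
        p * (((Finset.Icc 1 N : Finset ℕ) : Set ℕ) ∩ {n | T^[a n] x ∉ G}).ncard ≤ N} ⊆
        (⋃ i ∈ Finset.range H, T^[i] ⁻¹' B)ᶜ ∪
          ((⋃ i ∈ Finset.range L, T^[i] ⁻¹' B) ∪ ⋃ i ∈ IF, T^[i] ⁻¹' B) := by
      intro x hxbad
      by_contra hcon
      rw [mem_union, mem_union, not_or, not_or] at hcon
      obtain ⟨h1, h2, h3⟩ := hcon
      rw [mem_compl_iff, not_not] at h1
      obtain ⟨i, hi, hxi⟩ := mem_iUnion₂.1 h1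
      have hi' := Finset.mem_range.1 hi
      have hLi : L ≤ i := by
        by_contra h
        exact h2 (mem_iUnion₂.2 ⟨i, Finset.mem_range.2 (by omega), hxi⟩)
      have hiF : (-(i : ZMod Q)) ∈ F := by
        by_contra h
        exact h3 (mem_iUnion₂.2 ⟨i, Finset.mem_filter.2 ⟨hi, Finset.mem_compl.2 h⟩, hxi⟩)
      obtain ⟨N, hN1, hN2, hN3, hN4⟩ := hx _ hiF
      apply hxbad
      refine ⟨N, hN1, hN2, hN3, le_trans (Nat.mul_le_mul_left _ ?_) hN4⟩
      rw [← Set.ncard_coe_finset]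
      refine Set.ncard_le_ncard ?_ (Finset.finite_toSet _)
      rintro n ⟨hn, hn2⟩
      rw [Finset.mem_coe, Finset.mem_filter]
      refine ⟨Finset.mem_coe.1 hn, fun hmem => hn2 ?_⟩
      have hnI := Finset.mem_Icc.1 (Finset.mem_coe.1 hn)
      have haL : a n ≤ L := Finset.le_sup (f := a) (Finset.mem_Icc.2 ⟨hnI.1, hnI.2.trans hN3⟩)
      refine mem_iUnion₂.2 ⟨i - a n, Finset.mem_filter.2
        ⟨Finset.mem_range.2 (by omega), ?_⟩, ?_⟩
      · rw [Nat.cast_sub (haL.trans hLi)]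
        rw [neg_sub, sub_eq_add_neg, add_comm]
        exact hmem
      · rw [mem_preimage, ← Function.iterate_add_apply, Nat.sub_add_cancel (haL.trans hLi)]
        exact hxi
    have hpL : p * L ≤ H := by
      calc p * L ≤ J := Nat.le_succ _
        _ ≤ Q * J := Nat.le_mul_of_pos_left _ hQ0
    calc (p : ℝ≥0∞) * μ _ ≤ p * (μ (⋃ i ∈ Finset.range H, T^[i] ⁻¹' B)ᶜ +
          (L * μ B + IF.card * μ B)) := by
          gcongr
          refine (measure_mono hsub).trans ((measure_union_le _ _).trans ?_)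
          gcongr
          refine (measure_union_le _ _).trans ?_
          gcongr
          · have := hun (Finset.range L)
            rwa [Finset.card_range] at this
          · exact hun IF
      _ = p * μ (⋃ i ∈ Finset.range H, T^[i] ⁻¹' B)ᶜ +
          (((p * L : ℕ) : ℝ≥0∞) * μ B + ((p * IF.card : ℕ) : ℝ≥0∞) * μ B) := by
          push_cast
          ring
      _ ≤ 1 + (((H : ℕ) : ℝ≥0∞) * μ B + ((H : ℕ) : ℝ≥0∞) * μ B) := by
          gcongr
          calc p * IF.card ≤ p * (J * (Fᶜ).card) := Nat.mul_le_mul_left _ hIFc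
            _ = (p * (Fᶜ).card) * J := by ring
            _ ≤ Q * J := Nat.mul_le_mul_right _ hF
      _ ≤ 1 + (1 + 1) := by gcongr
      _ = 3 := by norm_num

end Pool.Agent.Y249.BG
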